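import Pool.Agent.H155R2.BESR.StarSum

namespace Pool.Agent.H155R2.BESR

open Finset

variable {V : Type*} [DecidableEq V]

/-- No set of between `m` and `2m` lines of `R` spans at most `size + 3` points. -/
def WF (R : Finset (Finset V)) (m : ℕ) : Prop :=
  ∀ S ⊆ R, S.card ≤ 2 * m → (pts S).card ≤ S.card + 3 → S.card < m

/-- standing hypotheses for one colour class -/
structure Good (R : Finset (Finset V)) (m : ℕ) : Prop where
  three : ∀ L ∈ R, L.card = 3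
  lin : ∀ L ∈ R, ∀ M ∈ R, L ≠ M → (L ∩ M).card ≤ 1
  F2 : ∀ S ⊆ R, S.Nonempty → S.card ≤ 2 * m → S.card + 2 ≤ (pts S).card
  wf : WF R m
  hm : 4 ≤ m

lemma hull_mem {α : Type*} [DecidableEq α] {A : Finset (Finset α)} (hne : A.Nonempty)
    (hcl : ∀ S ∈ A, ∀ T ∈ A, S ∪ T ∈ A) : A.biUnion id ∈ A := by
  obtain ⟨T, hT, hmax⟩ := exists_max_image A card hne
  have : A.biUnion id = T := by
    apply Subset.antisymm
    · intro x hx
      obtain ⟨S, hS, hxS⟩ := mem_biUnion.1 hx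
      have h1 := hmax _ (hcl S hS T hT)
      have h2 : T ⊆ S ∪ T := subset_union_right
      have h3 := eq_of_subset_of_card_le h2 h1
      rw [h3]
      exact mem_union_left _ hxS
    · intro x hx
      exact mem_biUnion.2 ⟨T, hT, hx⟩
  rw [this]; exact hT

lemma subset_hull {α : Type*} [DecidableEq α] {A : Finset (Finset α)} {S : Finset α}
    (h : S ∈ A) : S ⊆ A.biUnion id := fun _ hx => mem_biUnion.2 ⟨S, h, hx⟩

/-- small sets of excess `≤ 2` containing `L` -/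
def NF (R : Finset (Finset V)) (m : ℕ) (L : Finset V) : Finset (Finset (Finset V)) :=
  R.powerset.filter (fun S => L ∈ S ∧ S.card < m ∧ (pts S).card ≤ S.card + 2)

lemma mem_NF {R : Finset (Finset V)} {m : ℕ} {L : Finset V} {S : Finset (Finset V)} :
    S ∈ NF R m L ↔ S ⊆ R ∧ L ∈ S ∧ S.card < m ∧ (pts S).card ≤ S.card + 2 := by
  simp [NF]

/-- the block of `L` -/
def Bk (R : Finset (Finset V)) (m : ℕ) (L : Finset V) : Finset (Finset V) :=
  (NF R m L).biUnion id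

/-- small tight sets containing `L` and `M` -/
def TF (R : Finset (Finset V)) (m : ℕ) (L M : Finset V) : Finset (Finset (Finset V)) :=
  R.powerset.filter (fun S => L ∈ S ∧ M ∈ S ∧ S.card < m ∧ (pts S).card ≤ S.card + 3)

lemma mem_TF {R : Finset (Finset V)} {m : ℕ} {L M : Finset V} {S : Finset (Finset V)} :
    S ∈ TF R m L M ↔ S ⊆ R ∧ L ∈ S ∧ M ∈ S ∧ S.card < m ∧ (pts S).card ≤ S.card + 3 := by
  simp [TF]

/-- the maximal tight set containing `L` and `M` -/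
def Pk (R : Finset (Finset V)) (m : ℕ) (L M : Finset V) : Finset (Finset V) :=
  (TF R m L M).biUnion id

section
variable {R : Finset (Finset V)} {m : ℕ}

lemma Good.NF_union (h : Good R m) {L : Finset V} :
    ∀ S ∈ NF R m L, ∀ T ∈ NF R m L, S ∪ T ∈ NF R m L := by
  intro S hS T hT
  rw [mem_NF] at hS hT ⊢
  obtain ⟨hS1, hS2, hS3, hS4⟩ := hS
  obtain ⟨hT1, hT2, hT3, hT4⟩ := hT
  have hc := card_union_add_card_inter S T
  have hF := h.F2 (S ∩ T) (inter_subset_left.trans hS1) ⟨L, mem_inter.2 ⟨hS2, hT2⟩⟩ (by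
    have := card_le_card (inter_subset_left : S ∩ T ⊆ S); omega)
  have hs := submod S T
  have hu : S ∪ T ⊆ R := union_subset hS1 hT1
  have hv : (pts (S ∪ T)).card ≤ (S ∪ T).card + 2 := by omega
  exact ⟨hu, mem_union_left _ hS2, h.wf _ hu (by omega) (by omega), hv⟩

lemma Good.sing_NF (h : Good R m) {L : Finset V} (hL : L ∈ R) : {L} ∈ NF R m L := by
  rw [mem_NF]
  have := h.hm
  refine ⟨by simpa using hL, mem_singleton_self L, by simp; omega, ?_⟩
  have e : pts {L} = L := by ext x; simp [mem_pts]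
  rw [e, h.three L hL, card_singleton]

lemma Good.Bk_mem (h : Good R m) {L : Finset V} (hL : L ∈ R) : Bk R m L ∈ NF R m L :=
  hull_mem ⟨_, h.sing_NF hL⟩ h.NF_union

lemma Good.self_Bk (h : Good R m) {L : Finset V} (hL : L ∈ R) : L ∈ Bk R m L :=
  (mem_NF.1 (h.Bk_mem hL)).2.1

lemma Good.Bk_sub (h : Good R m) {L : Finset V} (hL : L ∈ R) : Bk R m L ⊆ R :=
  (mem_NF.1 (h.Bk_mem hL)).1

lemma sub_Bk {L : Finset V} {S : Finset (Finset V)} (hS : S ∈ NF R m L) : S ⊆ Bk R m L :=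
  subset_hull hS

lemma Good.Bk_eq (h : Good R m) {L M : Finset V} (hL : L ∈ R) (hM : M ∈ Bk R m L) :
    Bk R m M = Bk R m L := by
  have h1 := mem_NF.1 (h.Bk_mem hL)
  have hMR : M ∈ R := h1.1 hM
  have h2 : Bk R m L ⊆ Bk R m M := sub_Bk (mem_NF.2 ⟨h1.1, hM, h1.2.2⟩)
  have h3 := mem_NF.1 (h.Bk_mem hMR)
  have h4 : Bk R m M ⊆ Bk R m L := sub_Bk (mem_NF.2 ⟨h3.1, h2 h1.2.1, h3.2.2⟩)
  exact Subset.antisymm h4 h2

lemma Good.TF_union (h : Good R m) {L M : Finset V} (hML : M ∉ Bk R m L) :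
    ∀ S ∈ TF R m L M, ∀ T ∈ TF R m L M, S ∪ T ∈ TF R m L M := by
  intro S hS T hT
  rw [mem_TF] at hS hT ⊢
  obtain ⟨hS1, hS2, hS2', hS3, hS4⟩ := hS
  obtain ⟨hT1, hT2, hT2', hT3, hT4⟩ := hT
  have hc := card_union_add_card_inter S T
  have hci := card_le_card (inter_subset_left : S ∩ T ⊆ S)
  have hF : (S ∩ T).card + 3 ≤ (pts (S ∩ T)).card := by
    by_contra hcon
    apply hML
    exact sub_Bk (mem_NF.2 ⟨inter_subset_left.trans hS1, mem_inter.2 ⟨hS2, hT2⟩,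
      by omega, by omega⟩) (mem_inter.2 ⟨hS2', hT2'⟩)
  have hs := submod S T
  have hu : S ∪ T ⊆ R := union_subset hS1 hT1
  have hv : (pts (S ∪ T)).card ≤ (S ∪ T).card + 3 := by omega
  exact ⟨hu, mem_union_left _ hS2, mem_union_left _ hS2', h.wf _ hu (by omega) (by omega), hv⟩

lemma Good.pair_TF (h : Good R m) {L M : Finset V} (hL : L ∈ R) (hM : M ∈ R)
    (hne : (M ∩ L).Nonempty) : {L, M} ∈ TF R m L M := by
  rw [mem_TF]
  have hm := h.hm
  have hc : ({L, M} : Finset (Finset V)).card ≤ 2 := card_le_two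
  refine ⟨?_, by simp, by simp, by omega, ?_⟩
  · intro x hx
    rcases mem_insert.1 hx with rfl | hx
    · exact hL
    · rw [mem_singleton] at hx; rw [hx]; exact hM
  · have e : pts {L, M} = M ∪ L := by
      ext x; simp [mem_pts, or_comm]
    by_cases hLM : L = M
    · subst hLM
      simp only [union_self] at e
      rw [e, h.three L hL]; omega
    · rw [e, card_pair hLM]
      have h1 := card_union_add_card_inter M L
      have h2 := card_pos.2 hne
      have h3 := h.three L hL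
      have h4 := h.three M hM
      omega

lemma Good.Pk_mem (h : Good R m) {L M : Finset V} (hL : L ∈ R) (hM : M ∈ nb R (Bk R m) L) :
    Pk R m L M ∈ TF R m L M := by
  rw [mem_nb] at hM
  exact hull_mem ⟨_, h.pair_TF hL hM.1 hM.2.2⟩ (h.TF_union hM.2.1)

lemma sub_Pk {L M : Finset V} {S : Finset (Finset V)} (hS : S ∈ TF R m L M) :
    S ⊆ Pk R m L M := subset_hull hS

lemma Good.Pk_cfg (h : Good R m) {L M : Finset V} (hL : L ∈ R) (hM : M ∈ nb R (Bk R m) L) :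
    Cfg (Pk R m L M) (Bk R m) := by
  have hP := mem_TF.1 (h.Pk_mem hL hM)
  obtain ⟨hPR, hLP, hMP, hPc, hPv⟩ := hP
  refine ⟨fun K hK => h.three K (hPR hK), fun K hK K' hK' => h.lin K (hPR hK) K' (hPR hK'),
    fun K hK => h.self_Bk (hPR hK), ?_, fun K hK K' hK' => h.Bk_eq (hPR hK) hK',
    fun K hK => (mem_NF.1 (h.Bk_mem (hPR hK))).2.2.2, ?_, ?_⟩
  · intro K hK
    have hB := mem_NF.1 (h.Bk_mem (hPR hK))
    have hc := card_union_add_card_inter (Pk R m L M) (Bk R m K)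
    have hci := card_le_card (inter_subset_left : Pk R m L M ∩ Bk R m K ⊆ Pk R m L M)
    have hF := h.F2 (Pk R m L M ∩ Bk R m K) (inter_subset_left.trans hPR)
      ⟨K, mem_inter.2 ⟨hK, hB.2.1⟩⟩ (by omega)
    have hs := submod (Pk R m L M) (Bk R m K)
    have hu : Pk R m L M ∪ Bk R m K ⊆ R := union_subset hPR hB.1
    have hv : (pts (Pk R m L M ∪ Bk R m K)).card ≤ (Pk R m L M ∪ Bk R m K).card + 3 := by
      omega
    have hT : Pk R m L M ∪ Bk R m K ∈ TF R m L M :=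
      mem_TF.2 ⟨hu, mem_union_left _ hLP, mem_union_left _ hMP,
        h.wf _ hu (by omega) hv, hv⟩
    exact subset_union_right.trans (sub_Pk hT)
  · intro S hS hne
    have := card_le_card hS
    exact h.F2 S (hS.trans hPR) hne (by omega)
  · intro S hS K hK K' hK' hKK'
    have hc := card_le_card hS
    by_contra hcon
    apply hKK'
    exact sub_Bk (mem_NF.2 ⟨hS.trans hPR, hK, by omega, by omega⟩) hK'

lemma Good.Pk_eq (h : Good R m) {L M K K' : Finset V} (hL : L ∈ R)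
    (hM : M ∈ nb R (Bk R m) L) (hK : K ∈ Pk R m L M) (hK' : K' ∈ Pk R m L M)
    (hKK' : K' ∈ nb R (Bk R m) K) : Pk R m K K' = Pk R m L M := by
  have hP := mem_TF.1 (h.Pk_mem hL hM)
  obtain ⟨hPR, hLP, hMP, hPc, hPv⟩ := hP
  have h1 : Pk R m L M ⊆ Pk R m K K' := sub_Pk (mem_TF.2 ⟨hPR, hK, hK', hPc, hPv⟩)
  have hP' := mem_TF.1 (h.Pk_mem (hPR hK) hKK')
  have h2 : Pk R m K K' ⊆ Pk R m L M :=
    sub_Pk (mem_TF.2 ⟨hP'.1, h1 hLP, h1 hMP, hP'.2.2.2.1, hP'.2.2.2.2⟩)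
  exact Subset.antisymm h2 h1

/-- triangles lie in one tight set -/
lemma Good.tri (h : Good R m) {L M N : Finset V} (hL : L ∈ R) (hM : M ∈ nb R (Bk R m) L)
    (hN : N ∈ nb R (Bk R m) L) {x : V} (hxM : x ∈ M) (hxN : x ∈ N) (hxL : x ∉ L) :
    N ∈ Pk R m L M := by
  by_cases hMN : M = N
  · subst hMN
    exact (mem_TF.1 (h.Pk_mem hL hM)).2.2.1
  obtain ⟨hMR, hMB, p, hp⟩ := mem_nb.1 hM
  obtain ⟨hNR, hNB, q, hq⟩ := mem_nb.1 hN
  rw [mem_inter] at hp hq
  have hLM : L ≠ M := by rintro rfl; exact hxL hxM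
  have hLN : L ≠ N := by rintro rfl; exact hxL hxN
  have hm := h.hm
  have hcard : ({L, M, N} : Finset (Finset V)).card = 3 := by
    rw [card_eq_three]; exact ⟨L, M, N, hLM, hLN, hMN, rfl⟩
  have hpts : (pts ({L, M, N} : Finset (Finset V))).card ≤ 6 := by
    have e : pts ({L, M, N} : Finset (Finset V)) ⊆
        L ∪ ({x} ∪ ((M.erase p).erase x ∪ (N.erase q).erase x)) := by
      intro y hy
      rw [mem_pts] at hy
      simp only [mem_insert, mem_singleton, exists_eq_or_imp, exists_eq_left] at hy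
      simp only [mem_union, mem_singleton, mem_erase]
      by_cases hyx : y = x
      · exact Or.inr (Or.inl hyx)
      rcases hy with hy | hy | hy
      · exact Or.inl hy
      · by_cases hyp : y = p
        · left; rw [hyp]; exact hp.2
        · exact Or.inr (Or.inr (Or.inl ⟨hyx, hyp, hy⟩))
      · by_cases hyq : y = q
        · left; rw [hyq]; exact hq.2
        · exact Or.inr (Or.inr (Or.inr ⟨hyx, hyq, hy⟩))
    have h1 := card_le_card e
    have h2 := card_union_le L ({x} ∪ ((M.erase p).erase x ∪ (N.erase q).erase x))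
    have h3 := card_union_le {x} ((M.erase p).erase x ∪ (N.erase q).erase x)
    have h4 := card_union_le ((M.erase p).erase x) ((N.erase q).erase x)
    have hxp : x ≠ p := fun e => hxL (e ▸ hp.2)
    have hxq : x ≠ q := fun e => hxL (e ▸ hq.2)
    have h5 : ((M.erase p).erase x).card = 1 := by
      rw [card_erase_of_mem (mem_erase.2 ⟨hxp, hxM⟩), card_erase_of_mem hp.1, h.three M hMR]
    have h6 : ((N.erase q).erase x).card = 1 := by
      rw [card_erase_of_mem (mem_erase.2 ⟨hxq, hxN⟩), card_erase_of_mem hq.1, h.three N hNR]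
    have h7 := h.three L hL
    rw [card_singleton] at h3
    omega
  have hT : ({L, M, N} : Finset (Finset V)) ∈ TF R m L M := by
    rw [mem_TF]
    refine ⟨?_, by simp, by simp, by omega, by omega⟩
    intro y hy
    simp only [mem_insert, mem_singleton] at hy
    rcases hy with rfl | rfl | rfl
    · exact hL
    · exact hMR
    · exact hNR
  exact sub_Pk hT (by simp)

/-- all maximal tight sets -/
def PP (R : Finset (Finset V)) (m : ℕ) : Finset (Finset (Finset V)) :=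
  (R.sigma (fun L => nb R (Bk R m) L)).image (fun q => Pk R m q.1 q.2)

lemma mem_PP {P : Finset (Finset V)} :
    P ∈ PP R m ↔ ∃ L ∈ R, ∃ M ∈ nb R (Bk R m) L, Pk R m L M = P := by
  simp only [PP, mem_image, mem_sigma, Sigma.exists]
  constructor
  · rintro ⟨L, M, ⟨h1, h2⟩, h3⟩; exact ⟨L, h1, M, h2, h3⟩
  · rintro ⟨L, h1, M, h2, h3⟩; exact ⟨L, M, ⟨h1, h2⟩, h3⟩

lemma Good.nb_Pk (h : Good R m) {P : Finset (Finset V)} (hP : P ∈ PP R m) {K : Finset V}
    (_hK : K ∈ P) {M : Finset V} : M ∈ nb P (Bk R m) K ↔ M ∈ nb R (Bk R m) K ∧ M ∈ P := by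
  obtain ⟨L, hL, L', hL', rfl⟩ := mem_PP.1 hP
  have hPR := (mem_TF.1 (h.Pk_mem hL hL')).1
  simp only [mem_nb]
  constructor
  · rintro ⟨h1, h2, h3⟩; exact ⟨⟨hPR h1, h2, h3⟩, h1⟩
  · rintro ⟨⟨h1, h2, h3⟩, h4⟩; exact ⟨h4, h2, h3⟩

lemma Good.PP_sub (h : Good R m) {P : Finset (Finset V)} (hP : P ∈ PP R m) : P ⊆ R := by
  obtain ⟨L, hL, L', hL', rfl⟩ := mem_PP.1 hP
  exact (mem_TF.1 (h.Pk_mem hL hL')).1

lemma Good.PP_uniq (h : Good R m) {P : Finset (Finset V)} (hP : P ∈ PP R m) {K M : Finset V}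
    (hK : K ∈ P) (hM : M ∈ P) (hKM : M ∈ nb R (Bk R m) K) : P = Pk R m K M := by
  obtain ⟨L, hL, L', hL', rfl⟩ := mem_PP.1 hP
  exact (h.Pk_eq hL hL' hK hM hKM).symm

lemma Good.jn_P (h : Good R m) {P : Finset (Finset V)} (hP : P ∈ PP R m) {L : Finset V}
    (hL : L ∈ P) {x : V} (hx : x ∈ XX P (Bk R m) L) :
    jn P (Bk R m) x L = jn R (Bk R m) x L := by
  obtain ⟨hxL, M, hM, hxM⟩ := mem_XX.1 hx
  rw [h.nb_Pk hP hL] at hM
  have hPe := h.PP_uniq hP hL hM.2 hM.1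
  unfold jn
  congr 1
  ext N
  simp only [mem_filter]
  rw [h.nb_Pk hP hL]
  constructor
  · rintro ⟨⟨h1, _⟩, h3⟩; exact ⟨h1, h3⟩
  · rintro ⟨h1, h3⟩
    refine ⟨⟨h1, ?_⟩, h3⟩
    rw [hPe]
    exact h.tri (h.PP_sub hP hL) hM.1 h1 hxM h3 hxL

lemma Good.sigma_eq (h : Good R m) :
    R.sigma (fun L => XX R (Bk R m) L) =
      (PP R m).biUnion (fun P => P.sigma (fun L => XX P (Bk R m) L)) := by
  ext ⟨L, x⟩
  simp only [mem_sigma, mem_biUnion]
  constructor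
  · rintro ⟨hL, hx⟩
    obtain ⟨hxL, M, hM, hxM⟩ := mem_XX.1 hx
    have hP : Pk R m L M ∈ PP R m := mem_PP.2 ⟨L, hL, M, hM, rfl⟩
    have hT := mem_TF.1 (h.Pk_mem hL hM)
    refine ⟨Pk R m L M, hP, hT.2.1, mem_XX.2 ⟨hxL, M, ?_, hxM⟩⟩
    exact (h.nb_Pk hP hT.2.1).2 ⟨hM, hT.2.2.1⟩
  · rintro ⟨P, hP, hL, hx⟩
    obtain ⟨hxL, M, hM, hxM⟩ := mem_XX.1 hx
    exact ⟨h.PP_sub hP hL, mem_XX.2 ⟨hxL, M, ((h.nb_Pk hP hL).1 hM).1, hxM⟩⟩

lemma Good.sigma_disj (h : Good R m) :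
    ((PP R m : Finset (Finset (Finset V))) : Set (Finset (Finset V))).PairwiseDisjoint
      (fun P => P.sigma (fun L => XX P (Bk R m) L)) := by
  intro P hP P' hP' hne
  show Disjoint (P.sigma (fun L => XX P (Bk R m) L)) (P'.sigma (fun L => XX P' (Bk R m) L))
  rw [disjoint_left]
  rintro ⟨L, x⟩ h1 h2
  simp only [mem_sigma] at h1 h2
  apply hne
  obtain ⟨hxL, M, hM, hxM⟩ := mem_XX.1 h1.2
  obtain ⟨_, M', hM', hxM'⟩ := mem_XX.1 h2.2
  rw [h.nb_Pk (mem_coe.1 hP) h1.1] at hM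
  rw [h.nb_Pk (mem_coe.1 hP') h2.1] at hM'
  have e1 := h.PP_uniq (mem_coe.1 hP) h1.1 hM.2 hM.1
  have e2 := h.PP_uniq (mem_coe.1 hP') h2.1 hM'.2 hM'.1
  have hLR := h.PP_sub (mem_coe.1 hP) h1.1
  have h3 := h.tri hLR hM.1 hM'.1 hxM hxM' hxL
  have hT := mem_TF.1 (h.Pk_mem hLR hM.1)
  have h4 := h.Pk_eq hLR hM.1 hT.2.1 h3 hM'.1
  rw [e1, e2, h4]

/-- the global inequality for one colour class -/
theorem Good.main (h : Good R m) :
    2 * ((∑ L ∈ R, (nb R (Bk R m) L).card : ℕ) : ℤ) ≤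
      (m : ℤ) ^ 2 * ∑ L ∈ R, ∑ x ∈ XX R (Bk R m) L,
        ((jn R (Bk R m) x L : ℤ) * (2 - jn R (Bk R m) x L)) := by
  have e1 : ∑ L ∈ R, ∑ x ∈ XX R (Bk R m) L,
      ((jn R (Bk R m) x L : ℤ) * (2 - jn R (Bk R m) x L)) =
      ∑ P ∈ PP R m, ∑ L ∈ P, ∑ x ∈ XX P (Bk R m) L,
        ((jn P (Bk R m) x L : ℤ) * (2 - jn P (Bk R m) x L)) := by
    rw [sum_sigma' R (fun L => XX R (Bk R m) L)
      (fun L x => ((jn R (Bk R m) x L : ℤ) * (2 - jn R (Bk R m) x L)))]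
    rw [h.sigma_eq, sum_biUnion h.sigma_disj]
    apply sum_congr rfl
    intro P hP
    rw [sum_sigma]
    apply sum_congr rfl
    intro L hL
    apply sum_congr rfl
    intro x hx
    rw [h.jn_P hP hL hx]
  rw [e1]
  have h1 : ∑ P ∈ PP R m, (2 : ℤ) ≤ ∑ P ∈ PP R m, ∑ L ∈ P, ∑ x ∈ XX P (Bk R m) L,
        ((jn P (Bk R m) x L : ℤ) * (2 - jn P (Bk R m) x L)) := by
    apply sum_le_sum
    intro P hP
    obtain ⟨L, hL, M, hM, rfl⟩ := mem_PP.1 hP
    have hT := mem_TF.1 (h.Pk_mem hL hM)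
    exact (h.Pk_cfg hL hM).star ⟨L, hT.2.1, M, (h.nb_Pk hP hT.2.1).2 ⟨hM, hT.2.2.1⟩⟩
  have h2 : (R.sigma (fun L => nb R (Bk R m) L)).card ≤ m ^ 2 * (PP R m).card := by
    apply card_le_mul_card_image
    intro P hP
    obtain ⟨L, hL, M, hM, rfl⟩ := mem_PP.1 hP
    have hT := mem_TF.1 (h.Pk_mem hL hM)
    have hs : ((R.sigma (fun L => nb R (Bk R m) L)).filter
        (fun q => Pk R m q.1 q.2 = Pk R m L M)).card ≤
        (Pk R m L M ×ˢ Pk R m L M).card := by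
      apply card_le_card_of_injOn (fun q => (q.1, q.2))
      · rintro ⟨K, K'⟩ hq
        rw [mem_coe, mem_filter, mem_sigma] at hq
        obtain ⟨⟨hK, hK'⟩, he⟩ := hq
        have hT' := mem_TF.1 (h.Pk_mem hK hK')
        simp only at he hT'
        rw [mem_coe, mem_product]
        rw [he] at hT'
        exact ⟨hT'.2.1, hT'.2.2.1⟩
      · rintro ⟨K, K'⟩ _ ⟨K2, K2'⟩ _ heq
        simp only [Prod.mk.injEq] at heq
        obtain ⟨rfl, rfl⟩ := heq
        rfl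
    rw [card_product] at hs
    have hc := hT.2.2.2.1
    calc _ ≤ _ := hs
      _ ≤ m * m := Nat.mul_le_mul hc.le hc.le
      _ = m ^ 2 := by ring
  rw [card_sigma] at h2
  simp only [sum_const, nsmul_eq_mul] at h1
  have h2' : ((∑ L ∈ R, (nb R (Bk R m) L).card : ℕ) : ℤ) ≤ (m : ℤ) ^ 2 * (PP R m).card := by
    exact_mod_cast h2
  have hm2 : (0 : ℤ) ≤ (m : ℤ) ^ 2 := by positivity
  calc 2 * ((∑ L ∈ R, (nb R (Bk R m) L).card : ℕ) : ℤ) ≤ 2 * ((m : ℤ) ^ 2 * (PP R m).card) := by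
        linarith
    _ = (m : ℤ) ^ 2 * ((PP R m).card * 2) := by ring
    _ ≤ _ := mul_le_mul_of_nonneg_left h1 hm2

end

end Pool.Agent.H155R2.BESR
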