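import Pool.Agent.H155R2.BESR.Count

namespace Pool.Agent.H155R2.BESR

open Finset

variable {V : Type*} [DecidableEq V] [Fintype V]

theorem clean {R : Finset (Finset V)} {m : ℕ} (three : ∀ L ∈ R, L.card = 3)
    (lin : ∀ L ∈ R, ∀ M ∈ R, L ≠ M → (L ∩ M).card ≤ 1) (wf : WF R m) (hm : 4 ≤ m) :
    ∃ R' ⊆ R, Good R' m ∧ 3 * (R \ R').card ≤ 3 * m + m * Fintype.card V := by
  -- step 0
  have hne0 : (R.powerset.filter (fun S => S.card < m ∧ (pts S).card ≤ S.card)).Nonempty := by
    refine ⟨∅, mem_filter.2 ⟨empty_mem_powerset _, ?_, ?_⟩⟩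
    · rw [card_empty]; omega
    · simp [pts]
  obtain ⟨U0, hU0, hmax⟩ := exists_max_image _ card hne0
  simp only [mem_filter, mem_powerset] at hU0 hmax
  obtain ⟨hU0R, hU0c, hU0v⟩ := hU0
  set R1 := R \ U0 with hR1
  have hR1R : R1 ⊆ R := sdiff_subset
  have F1 : ∀ S ⊆ R1, S.Nonempty → S.card ≤ 2 * m → S.card + 1 ≤ (pts S).card := by
    intro S hS hne hc
    by_contra hcon
    have hv : (pts S).card ≤ S.card := by omega
    have hSm := wf S (hS.trans hR1R) hc (by omega)
    have hdis : Disjoint U0 S := by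
      rw [disjoint_left]
      intro L hL hLS
      exact (mem_sdiff.1 (hS hLS)).2 hL
    have hcu : (U0 ∪ S).card = U0.card + S.card := card_union_of_disjoint hdis
    have hvu : (pts (U0 ∪ S)).card ≤ (U0 ∪ S).card := by
      rw [pts_union]
      have := card_union_le (pts U0) (pts S)
      omega
    have hsub : U0 ∪ S ⊆ R := union_subset hU0R (hS.trans hR1R)
    have hlt := wf (U0 ∪ S) hsub (by omega) (by omega)
    have := hmax (U0 ∪ S) ⟨hsub, hlt, hvu⟩
    have := card_pos.2 hne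
    omega
  -- step 1
  let ZF : V → Finset (Finset (Finset V)) := fun x =>
    R1.powerset.filter (fun S => S.card < m ∧ x ∈ pts S ∧ (pts S).card ≤ S.card + 1)
  have hZF : ∀ x S, S ∈ ZF x ↔ S ⊆ R1 ∧ S.card < m ∧ x ∈ pts S ∧ (pts S).card ≤ S.card + 1 := by
    intro x S
    simp only [ZF, mem_filter, mem_powerset]
  have hcl : ∀ x, ∀ S ∈ ZF x, ∀ T ∈ ZF x, S ∪ T ∈ ZF x := by
    intro x S hS T hT
    rw [hZF] at hS hT ⊢
    obtain ⟨hS1, hS2, hS3, hS4⟩ := hS
    obtain ⟨hT1, hT2, hT3, hT4⟩ := hT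
    have hu : S ∪ T ⊆ R1 := union_subset hS1 hT1
    have hc := card_union_add_card_inter S T
    have hv : (pts (S ∪ T)).card ≤ (S ∪ T).card + 1 := by
      by_cases hi : (S ∩ T).Nonempty
      · have hF := F1 (S ∩ T) (inter_subset_left.trans hS1) hi (by
          have := card_le_card (inter_subset_left : S ∩ T ⊆ S); omega)
        have hs := submod S T
        omega
      · rw [not_nonempty_iff_eq_empty] at hi
        rw [hi, card_empty] at hc
        have h1 := card_union_add_card_inter (pts S) (pts T)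
        have h2 : 0 < (pts S ∩ pts T).card := card_pos.2 ⟨x, mem_inter.2 ⟨hS3, hT3⟩⟩
        rw [pts_union]
        omega
    exact ⟨hu, wf _ (hu.trans hR1R) (by omega) (by omega),
      pts_mono subset_union_left hS3, hv⟩
  let U1 : Finset (Finset V) := R1.filter (fun L => ∃ S ∈ R1.powerset,
    S.card < m ∧ L ∈ S ∧ (pts S).card ≤ S.card + 1)
  have hU1 : ∀ L, L ∈ U1 ↔ L ∈ R1 ∧ ∃ S ⊆ R1, S.card < m ∧ L ∈ S ∧
      (pts S).card ≤ S.card + 1 := by
    intro L
    simp only [U1, mem_filter, mem_powerset]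
  have hdeg : ∀ x : V, (U1.filter (fun L => x ∈ L)).card ≤ m := by
    intro x
    by_cases hne : (U1.filter (fun L => x ∈ L)).Nonempty
    · obtain ⟨L0, hL0⟩ := hne
      rw [mem_filter, hU1] at hL0
      obtain ⟨⟨_, S0, hS0, hS0c, hL0S, hS0v⟩, hxL0⟩ := hL0
      have hne' : (ZF x).Nonempty :=
        ⟨S0, (hZF x S0).2 ⟨hS0, hS0c, mem_pts.2 ⟨L0, hL0S, hxL0⟩, hS0v⟩⟩
      have hh := (hZF x _).1 (hull_mem hne' (hcl x))
      have hsub : U1.filter (fun L => x ∈ L) ⊆ (ZF x).biUnion id := by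
        intro L hL
        rw [mem_filter, hU1] at hL
        obtain ⟨⟨_, S, hS, hSc, hLS, hSv⟩, hxL⟩ := hL
        exact subset_hull ((hZF x S).2 ⟨hS, hSc, mem_pts.2 ⟨L, hLS, hxL⟩, hSv⟩) hLS
      have := card_le_card hsub
      omega
    · rw [not_nonempty_iff_eq_empty] at hne
      rw [hne, card_empty]; omega
  have hU1R : U1 ⊆ R1 := filter_subset _ _
  have h3U : 3 * U1.card ≤ m * Fintype.card V := by
    have h1 : ∑ x : V, (U1.filter (fun L => x ∈ L)).card = ∑ L ∈ U1, ∑ x ∈ L, 1 := by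
      have : ∀ x : V, (U1.filter (fun L => x ∈ L)).card =
          ∑ L ∈ U1.filter (fun L => x ∈ L), 1 := by intro x; simp
      rw [sum_congr rfl (fun x _ => this x)]
      apply sum_comm'
      intro x L
      simp only [mem_univ, true_and, mem_filter]
      tauto
    have h2 : ∀ L ∈ U1, ∑ x ∈ L, 1 = 3 := by
      intro L hL
      simp [three L (hR1R (hU1R hL))]
    rw [sum_congr rfl h2] at h1
    simp only [sum_const, smul_eq_mul] at h1
    have h3 : ∑ x : V, (U1.filter (fun L => x ∈ L)).card ≤ ∑ x : V, m :=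
      sum_le_sum (fun x _ => hdeg x)
    simp only [sum_const, card_univ, smul_eq_mul] at h3
    calc 3 * U1.card = U1.card * 3 := by ring
      _ ≤ Fintype.card V * m := by rw [← h1]; exact h3
      _ = _ := by ring
  refine ⟨R1 \ U1, sdiff_subset.trans hR1R, ⟨?_, ?_, ?_, ?_, hm⟩, ?_⟩
  · intro L hL
    exact three L (hR1R (sdiff_subset hL))
  · intro L hL M hM
    exact lin L (hR1R (sdiff_subset hL)) M (hR1R (sdiff_subset hM))
  · intro S hS hne hc
    by_contra hcon
    have hSR1 : S ⊆ R1 := hS.trans sdiff_subset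
    have hSm := wf S (hSR1.trans hR1R) hc (by omega)
    obtain ⟨L, hL⟩ := hne
    have := (mem_sdiff.1 (hS hL)).2
    apply this
    rw [hU1]
    exact ⟨hSR1 hL, S, hSR1, hSm, hL, by omega⟩
  · intro S hS hc hv
    exact wf S (hS.trans (sdiff_subset.trans hR1R)) hc hv
  · have hsub : R \ (R1 \ U1) ⊆ U0 ∪ U1 := by
      intro L hL
      rw [mem_sdiff] at hL
      by_cases h0 : L ∈ U0
      · exact mem_union_left _ h0
      · apply mem_union_right
        by_contra h1
        exact hL.2 (mem_sdiff.2 ⟨mem_sdiff.2 ⟨hL.1, h0⟩, h1⟩)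
    have h1 := card_le_card hsub
    have h2 := card_union_le U0 U1
    omega

end Pool.Agent.H155R2.BESR
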