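import Pool.Agent.H155R2.BESR.Blocks

namespace Pool.Agent.H155R2.BESR

open Finset

variable {V : Type*} [DecidableEq V]

/-- two distinct points on a common line of `R` -/
def adj (R : Finset (Finset V)) (x y : V) : Prop := x ≠ y ∧ ∃ L ∈ R, x ∈ L ∧ y ∈ L

instance (R : Finset (Finset V)) (x y : V) : Decidable (adj R x y) := by
  unfold adj; infer_instance

omit [DecidableEq V] in
lemma adj_comm {R : Finset (Finset V)} {x y : V} : adj R x y ↔ adj R y x := by
  unfold adj
  constructor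
  · rintro ⟨h, L, hL, h1, h2⟩; exact ⟨h.symm, L, hL, h2, h1⟩
  · rintro ⟨h, L, hL, h1, h2⟩; exact ⟨h.symm, L, hL, h2, h1⟩

lemma line_uniq {R : Finset (Finset V)} (lin : ∀ L ∈ R, ∀ M ∈ R, L ≠ M → (L ∩ M).card ≤ 1)
    {L M : Finset V} (hL : L ∈ R) (hM : M ∈ R) {x y : V} (hxy : x ≠ y)
    (h1 : x ∈ L) (h2 : y ∈ L) (h3 : x ∈ M) (h4 : y ∈ M) : L = M := by
  by_contra hne
  have hl := lin L hL M hM hne
  have hs : ({x, y} : Finset V) ⊆ L ∩ M := by
    intro z hz
    rcases mem_insert.1 hz with rfl | hz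
    · exact mem_inter.2 ⟨h1, h3⟩
    · rw [mem_singleton] at hz
      subst hz
      exact mem_inter.2 ⟨h2, h4⟩
  have := card_le_card hs
  rw [card_pair hxy] at this
  omega

variable [Fintype V]

/-- degree of `x` in the collinearity graph -/
def rd (R : Finset (Finset V)) (x : V) : ℕ := (univ.filter (fun y => adj R x y)).card

section
variable {R : Finset (Finset V)} {m : ℕ}

lemma rd_eq (three : ∀ L ∈ R, L.card = 3)
    (lin : ∀ L ∈ R, ∀ M ∈ R, L ≠ M → (L ∩ M).card ≤ 1) (x : V) :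
    rd R x = 2 * (DD R x).card := by
  unfold rd
  have e : univ.filter (fun y => adj R x y) = (DD R x).biUnion (fun L => L.erase x) := by
    ext y
    simp only [mem_filter, mem_univ, true_and, mem_biUnion, mem_DD, mem_erase]
    constructor
    · rintro ⟨h, L, hL, h1, h2⟩; exact ⟨L, ⟨hL, h1⟩, h.symm, h2⟩
    · rintro ⟨L, ⟨hL, h1⟩, h, h2⟩; exact ⟨h.symm, L, hL, h1, h2⟩
  rw [e, card_biUnion]
  · have : ∀ L ∈ DD R x, (L.erase x).card = 2 := by
      intro L hL
      rw [card_erase_of_mem (mem_DD.1 hL).2, three L (mem_DD.1 hL).1]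
    rw [sum_congr rfl this]
    simp [mul_comm]
  · intro L hL M hM hne
    rw [mem_coe, mem_DD] at hL hM
    show Disjoint (L.erase x) (M.erase x)
    rw [disjoint_left]
    intro y hy hy'
    obtain ⟨hyx, hy⟩ := mem_erase.1 hy
    obtain ⟨_, hy'⟩ := mem_erase.1 hy'
    exact hne (line_uniq lin hL.1 hM.1 hyx hy hL.2 hy' hM.2)

lemma sum_rd (three : ∀ L ∈ R, L.card = 3)
    (lin : ∀ L ∈ R, ∀ M ∈ R, L ≠ M → (L ∩ M).card ≤ 1) :
    ∑ x, rd R x = 6 * R.card := by
  have h1 : ∑ x : V, rd R x = ∑ x : V, ∑ L ∈ DD R x, 2 := by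
    apply sum_congr rfl
    intro x _
    rw [rd_eq three lin x]
    simp [mul_comm]
  rw [h1]
  have h2 : ∑ x : V, ∑ L ∈ DD R x, 2 = ∑ L ∈ R, ∑ x ∈ L, 2 := by
    apply sum_comm'
    intro x L
    simp only [mem_univ, true_and, mem_DD]
    tauto
  rw [h2]
  have h3 : ∀ L ∈ R, ∑ x ∈ L, 2 = 6 := by
    intro L hL
    simp [three L hL]
  rw [sum_congr rfl h3]
  simp [mul_comm]

lemma Good.four_C2 (h : Good R m) :
    4 * ∑ L ∈ R, (nb R (Bk R m) L).card ≤ ∑ x, (rd R x) ^ 2 := by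
  have h1 : ∑ L ∈ R, (nb R (Bk R m) L).card ≤ ∑ L ∈ R, ∑ x ∈ L, (DD R x).card := by
    apply sum_le_sum
    intro L hL
    have hs : nb R (Bk R m) L ⊆ L.biUnion (fun x => DD R x) := by
      intro M hM
      obtain ⟨hM1, _, p, hp⟩ := mem_nb.1 hM
      rw [mem_inter] at hp
      exact mem_biUnion.2 ⟨p, hp.2, mem_DD.2 ⟨hM1, hp.1⟩⟩
    exact (card_le_card hs).trans card_biUnion_le
  have h2 : ∑ L ∈ R, ∑ x ∈ L, (DD R x).card = ∑ x : V, ∑ L ∈ DD R x, (DD R x).card := by
    apply sum_comm'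
    intro L x
    simp only [mem_univ, mem_DD]
    tauto
  have h3 : ∑ x : V, ∑ L ∈ DD R x, (DD R x).card = ∑ x : V, (DD R x).card ^ 2 := by
    apply sum_congr rfl
    intro x _
    simp [sq]
  have h4 : ∑ x, (rd R x) ^ 2 = 4 * ∑ x : V, (DD R x).card ^ 2 := by
    rw [mul_sum]
    apply sum_congr rfl
    intro x _
    rw [rd_eq h.three h.lin x]
    ring
  rw [h4, ← h3, ← h2]
  exact Nat.mul_le_mul_left 4 h1

lemma Good.nb_sdiff (h : Good R m) {L M : Finset V} (hL : L ∈ R) (hM : M ∈ nb R (Bk R m) L) :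
    (M \ L).card = 2 := by
  obtain ⟨hM1, hM2, hM3⟩ := mem_nb.1 hM
  have hne : M ≠ L := fun e => hM2 (by rw [e]; exact h.self_Bk hL)
  have h1 := h.lin M hM1 L hL hne
  have h2 := card_pos.2 hM3
  have h3 := card_sdiff_add_card_inter M L
  have h4 := h.three M hM1
  omega

lemma Good.sum_jn (h : Good R m) {L : Finset V} (hL : L ∈ R) :
    ∑ x ∈ XX R (Bk R m) L, jn R (Bk R m) x L = 2 * (nb R (Bk R m) L).card := by
  have h1 : ∑ x ∈ XX R (Bk R m) L, jn R (Bk R m) x L =
      ∑ x ∈ XX R (Bk R m) L, ∑ M ∈ nb R (Bk R m) L, (if x ∈ M then 1 else 0) := by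
    apply sum_congr rfl
    intro x _
    unfold jn
    rw [card_filter]
  rw [h1, sum_comm]
  have h2 : ∀ M ∈ nb R (Bk R m) L,
      ∑ x ∈ XX R (Bk R m) L, (if x ∈ M then 1 else 0) = 2 := by
    intro M hM
    rw [← card_filter]
    rw [← h.nb_sdiff hL hM]
    congr 1
    ext x
    simp only [mem_filter, mem_XX, mem_sdiff]
    constructor
    · rintro ⟨⟨h1, _⟩, h2⟩
      exact ⟨h2, h1⟩
    · rintro ⟨h1, h2⟩
      exact ⟨⟨h2, M, hM, h1⟩, h1⟩
  rw [sum_congr rfl h2]
  simp [mul_comm]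

/-- ordered triangles in the collinearity graph (including collinear triples) -/
def TR (R : Finset (Finset V)) : Finset (V × V × V) :=
  univ.filter (fun t => adj R t.1 t.2.1 ∧ adj R t.2.1 t.2.2 ∧ adj R t.1 t.2.2)

omit [Fintype V] in
lemma offDiag_card_le {s : Finset V} {j : ℕ} (h : s.card ≤ j) :
    (s.offDiag.card : ℤ) ≤ (j : ℤ) * (j - 1) := by
  rw [offDiag_card]
  have h1 : s.card ≤ s.card * s.card := by
    rcases Nat.eq_zero_or_pos s.card with h0 | h0
    · rw [h0]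
    · exact Nat.le_mul_of_pos_left _ h0
  rw [Nat.cast_sub h1]
  push_cast
  have h2 : (s.card : ℤ) ≤ j := by exact_mod_cast h
  rcases Nat.eq_zero_or_pos s.card with h0 | h0
  · rw [h0]
    simp only [Nat.cast_zero, mul_zero, sub_zero]
    rcases Nat.eq_zero_or_pos j with hj | hj
    · rw [hj]; simp
    · have : (1 : ℤ) ≤ j := by exact_mod_cast hj
      nlinarith
  · have : (1 : ℤ) ≤ s.card := by exact_mod_cast h0
    nlinarith

lemma Good.TR_le (h : Good R m) :
    ((TR R).card : ℤ) ≤ 6 * (m + 1) * R.card +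
      ∑ L ∈ R, ∑ x ∈ XX R (Bk R m) L,
        ((jn R (Bk R m) x L : ℤ) * (jn R (Bk R m) x L - 1)) := by
  have hs : TR R ⊆ R.biUnion (fun L =>
      (univ.sigma (fun x => (L.filter (fun y => adj R x y)).offDiag)).image
        (fun q : (_ : V) × V × V => (q.1, q.2.1, q.2.2))) := by
    rintro ⟨x, y, z⟩ ht
    simp only [TR, mem_filter, mem_univ, true_and] at ht
    obtain ⟨h1, ⟨hyz, L, hL, hyL, hzL⟩, h3⟩ := ht
    rw [mem_biUnion]
    refine ⟨L, hL, mem_image.2 ⟨⟨x, y, z⟩, ?_, rfl⟩⟩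
    simp only [mem_sigma, mem_univ, true_and, mem_offDiag, mem_filter]
    exact ⟨⟨hyL, h1⟩, ⟨hzL, h3⟩, hyz⟩
  have h1 : (TR R).card ≤ ∑ L ∈ R, ∑ x : V, ((L.filter (fun y => adj R x y)).offDiag).card := by
    refine (card_le_card hs).trans (card_biUnion_le.trans (sum_le_sum ?_))
    intro L _
    refine card_image_le.trans ?_
    rw [card_sigma]
  have h2 : ∀ L ∈ R, ∑ x : V, ((((L.filter (fun y => adj R x y)).offDiag).card : ℕ) : ℤ) ≤
      6 * (m + 1) + ∑ x ∈ XX R (Bk R m) L,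
        ((jn R (Bk R m) x L : ℤ) * (jn R (Bk R m) x L - 1)) := by
    intro L hL
    have hB := mem_NF.1 (h.Bk_mem hL)
    have hpt : ∀ x : V, ((((L.filter (fun y => adj R x y)).offDiag).card : ℕ) : ℤ) ≤
        (if x ∈ pts (Bk R m L) then 6 else 0) + (if x ∈ XX R (Bk R m) L then
          ((jn R (Bk R m) x L : ℤ) * (jn R (Bk R m) x L - 1)) else 0) := by
      intro x
      have hnn : (0 : ℤ) ≤ (if x ∈ XX R (Bk R m) L then
          ((jn R (Bk R m) x L : ℤ) * (jn R (Bk R m) x L - 1)) else 0) := by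
        split_ifs with hx
        · have hp : 0 < jn R (Bk R m) x L := jn_pos_iff.2 (mem_XX.1 hx).2
          have : (1 : ℤ) ≤ jn R (Bk R m) x L := by exact_mod_cast hp
          nlinarith
        · exact le_refl _
      by_cases hx : x ∈ pts (Bk R m L)
      · rw [if_pos hx]
        have h6 : ((L.filter (fun y => adj R x y)).offDiag).card ≤ 6 := by
          have h3 : (L.filter (fun y => adj R x y)).card ≤ 3 := by
            rw [← h.three L hL]; exact card_filter_le _ _
          rw [offDiag_card]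
          have : (L.filter (fun y => adj R x y)).card * (L.filter (fun y => adj R x y)).card -
            (L.filter (fun y => adj R x y)).card ≤ 6 := by
            interval_cases (L.filter (fun y => adj R x y)).card <;> norm_num
          exact this
        have h6' : ((((L.filter (fun y => adj R x y)).offDiag).card : ℕ) : ℤ) ≤ 6 := by
          exact_mod_cast h6
        linarith
      · rw [if_neg hx, zero_add]
        have hxL : x ∉ L := fun hc => hx (mem_pts.2 ⟨L, hB.2.1, hc⟩)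
        have hY : (L.filter (fun y => adj R x y)).card ≤ jn R (Bk R m) x L := by
          have hsub : L.filter (fun y => adj R x y) ⊆
              ((nb R (Bk R m) L).filter (fun M => x ∈ M)).biUnion (fun M => M ∩ L) := by
            intro y hy
            obtain ⟨hyL, hxy, M, hM, hxM, hyM⟩ := mem_filter.1 hy
            rw [mem_biUnion]
            refine ⟨M, mem_filter.2 ⟨mem_nb.2 ⟨hM, ?_, y, mem_inter.2 ⟨hyM, hyL⟩⟩, hxM⟩,
              mem_inter.2 ⟨hyM, hyL⟩⟩
            intro hMB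
            exact hx (mem_pts.2 ⟨M, hMB, hxM⟩)
          refine (card_le_card hsub).trans (card_biUnion_le.trans ?_)
          unfold jn
          rw [card_eq_sum_ones]
          apply sum_le_sum
          intro M hM
          have hM' := mem_nb.1 (mem_filter.1 hM).1
          exact h.lin M hM'.1 L hL (fun e => hM'.2.1 (e ▸ hB.2.1))
        by_cases hxX : x ∈ XX R (Bk R m) L
        · rw [if_pos hxX]
          exact offDiag_card_le hY
        · rw [if_neg hxX]
          have h0 : jn R (Bk R m) x L = 0 := by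
            by_contra hc
            have hp : 0 < jn R (Bk R m) x L := Nat.pos_of_ne_zero hc
            exact hxX (mem_XX.2 ⟨hxL, jn_pos_iff.1 hp⟩)
          have := offDiag_card_le hY
          rw [h0] at this
          simpa using this
    refine (sum_le_sum (fun x _ => hpt x)).trans ?_
    rw [sum_add_distrib, ← sum_filter, ← sum_filter]
    have e1 : univ.filter (fun x => x ∈ pts (Bk R m L)) = pts (Bk R m L) := by ext; simp
    have e2 : univ.filter (fun x => x ∈ XX R (Bk R m) L) = XX R (Bk R m) L := by ext; simp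
    rw [e1, e2]
    simp only [sum_const, nsmul_eq_mul]
    have h3 : (pts (Bk R m L)).card ≤ m + 1 := by omega
    have h3' : ((pts (Bk R m L)).card : ℤ) ≤ m + 1 := by exact_mod_cast h3
    linarith
  have h3 : ((TR R).card : ℤ) ≤ ∑ L ∈ R, ∑ x : V,
      ((((L.filter (fun y => adj R x y)).offDiag).card : ℕ) : ℤ) := by
    exact_mod_cast h1
  refine h3.trans ((sum_le_sum h2).trans ?_)
  rw [sum_add_distrib]
  simp only [sum_const, nsmul_eq_mul]
  linarith

/-- one-colour conclusion -/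
theorem Good.colour (h : Good R m) :
    2 * (m : ℤ) ^ 2 * (TR R).card ≤
      ((m : ℤ) ^ 2 - 1) * (∑ x, ((rd R x : ℤ)) ^ 2) + 12 * m ^ 2 * (m + 1) * R.card := by
  have h1 := h.main
  have h2 := h.TR_le
  have h3 := h.four_C2
  set C : ℕ := ∑ L ∈ R, (nb R (Bk R m) L).card with hC
  have e1 : ∑ L ∈ R, ∑ x ∈ XX R (Bk R m) L,
      ((jn R (Bk R m) x L : ℤ) * (2 - jn R (Bk R m) x L)) = 2 * (C : ℤ) -
      ∑ L ∈ R, ∑ x ∈ XX R (Bk R m) L,
        ((jn R (Bk R m) x L : ℤ) * (jn R (Bk R m) x L - 1)) := by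
    rw [hC]
    push_cast
    rw [mul_sum, ← sum_sub_distrib]
    apply sum_congr rfl
    intro L hL
    have e2 : (2 * (nb R (Bk R m) L).card : ℤ) =
        ∑ x ∈ XX R (Bk R m) L, (jn R (Bk R m) x L : ℤ) := by
      have := h.sum_jn hL
      exact_mod_cast this.symm
    rw [e2, ← sum_sub_distrib]
    apply sum_congr rfl
    intro x _
    ring
  set T6 := ∑ L ∈ R, ∑ x ∈ XX R (Bk R m) L,
        ((jn R (Bk R m) x L : ℤ) * (jn R (Bk R m) x L - 1))
  rw [e1] at h1
  have h3' : 4 * (C : ℤ) ≤ ∑ x, ((rd R x : ℤ)) ^ 2 := by exact_mod_cast h3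
  have hm := h.hm
  have hm' : (4 : ℤ) ≤ m := by exact_mod_cast hm
  have hm2 : (0 : ℤ) ≤ (m : ℤ) ^ 2 := by positivity
  have hm3 : (0 : ℤ) ≤ (m : ℤ) ^ 2 - 1 := by nlinarith
  -- m^2 T6 ≤ 2 (m^2-1) C
  have h4 : (m : ℤ) ^ 2 * T6 ≤ 2 * ((m : ℤ) ^ 2 - 1) * C := by nlinarith
  have h5 : (m : ℤ) ^ 2 * (TR R).card ≤ (m : ℤ) ^ 2 * (6 * (m + 1) * R.card + T6) :=
    mul_le_mul_of_nonneg_left h2 hm2
  have h6 : ((m : ℤ) ^ 2 - 1) * (4 * C) ≤ ((m : ℤ) ^ 2 - 1) * (∑ x, ((rd R x : ℤ)) ^ 2) :=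
    mul_le_mul_of_nonneg_left h3' hm3
  nlinarith

end

end Pool.Agent.H155R2.BESR
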