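import Pool.Agent.H155R2.BESR.Goodman
import Pool.Agent.H155R2.BESR.Clean

namespace Pool.Agent.H155R2.BESR

open Finset

variable {V : Type*} [DecidableEq V] [Fintype V]

lemma numeric (n m h : ℤ) (E A T : ℤ) (hm : 4 ≤ m) (hn : 45 * m ^ 3 ≤ n)
    (hden : (8 * m ^ 2 + 4) * (n ^ 2 - h) ≤ n ^ 2)
    (hE : h ≤ E + 12 * m + 4 * m * n) (hEn : E ≤ n ^ 2)
    (hG : 3 * A ≤ n ^ 3 + 2 * T)
    (hT : 2 * m ^ 2 * T ≤ (m ^ 2 - 1) * A + 2 * m ^ 2 * (m + 1) * E)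
    (hC : E ^ 2 ≤ 2 * n * A) : False := by
  have hm0 : (0 : ℤ) < m := by linarith
  have hm2 : 0 < m ^ 2 := by positivity
  have hm3 : 0 < m ^ 3 := by positivity
  have hn0 : 0 < n := by linarith
  have hn2 : 0 < n ^ 2 := by positivity
  -- (2m²+1) A ≤ m² n³ + 2 m² (m+1) n²
  have h1 : (2 * m ^ 2 + 1) * A ≤ m ^ 2 * n ^ 3 + 2 * m ^ 2 * (m + 1) * n ^ 2 := by
    have a1 : m ^ 2 * (3 * A) ≤ m ^ 2 * (n ^ 3 + 2 * T) := mul_le_mul_of_nonneg_left hG hm2.le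
    have a2 : 2 * m ^ 2 * (m + 1) * E ≤ 2 * m ^ 2 * (m + 1) * n ^ 2 :=
      mul_le_mul_of_nonneg_left hEn (by positivity)
    linarith
  -- multiply by 2n
  have h2 : (2 * m ^ 2 + 1) * E ^ 2 ≤ 2 * n * (m ^ 2 * n ^ 3 + 2 * m ^ 2 * (m + 1) * n ^ 2) := by
    have a1 : (2 * m ^ 2 + 1) * E ^ 2 ≤ (2 * m ^ 2 + 1) * (2 * n * A) :=
      mul_le_mul_of_nonneg_left hC (by positivity)
    have a2 : 2 * n * ((2 * m ^ 2 + 1) * A) ≤
        2 * n * (m ^ 2 * n ^ 3 + 2 * m ^ 2 * (m + 1) * n ^ 2) :=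
      mul_le_mul_of_nonneg_left h1 (by positivity)
    calc _ ≤ _ := a1
      _ = 2 * n * ((2 * m ^ 2 + 1) * A) := by ring
      _ ≤ _ := a2
  obtain ⟨D, hD⟩ : ∃ D, D = n ^ 2 - E := ⟨_, rfl⟩
  have h3 : n ^ 4 - 2 * D * n ^ 2 ≤ E ^ 2 := by
    have e : E ^ 2 = n ^ 4 - 2 * D * n ^ 2 + D ^ 2 := by rw [hD]; ring
    linarith [sq_nonneg D]
  have h4 : (2 * m ^ 2 + 1) * (n ^ 4 - 2 * D * n ^ 2) ≤
      2 * n * (m ^ 2 * n ^ 3 + 2 * m ^ 2 * (m + 1) * n ^ 2) :=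
    (mul_le_mul_of_nonneg_left h3 (by positivity)).trans h2
  have h5 : n ^ 2 * n ^ 2 ≤ n ^ 2 * ((4 * m ^ 2 + 2) * D + 4 * m ^ 2 * (m + 1) * n) := by
    linarith
  have h6 : n ^ 2 ≤ (4 * m ^ 2 + 2) * D + 4 * m ^ 2 * (m + 1) * n :=
    le_of_mul_le_mul_left h5 hn2
  have h7 : D ≤ (n ^ 2 - h) + 12 * m + 4 * m * n := by rw [hD]; linarith
  have h8 : (8 * m ^ 2 + 4) * D ≤ n ^ 2 + (8 * m ^ 2 + 4) * (12 * m + 4 * m * n) := by
    have : (8 * m ^ 2 + 4) * D ≤ (8 * m ^ 2 + 4) * ((n ^ 2 - h) + 12 * m + 4 * m * n) :=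
      mul_le_mul_of_nonneg_left h7 (by positivity)
    linarith
  have h9 : n ^ 2 ≤ (8 * m ^ 2 + 4) * (12 * m + 4 * m * n) + 8 * m ^ 2 * (m + 1) * n := by
    linarith
  have h10 : 45 * (m ^ 3 * n) ≤ n ^ 2 := by
    have := mul_le_mul_of_nonneg_right hn hn0.le
    linarith
  -- bound the right side
  have b1 : m ^ 2 * 4 ≤ m ^ 3 := by
    have := mul_le_mul_of_nonneg_left hm hm2.le
    linarith
  have b0 : 4 * 4 ≤ m ^ 2 := by
    have := mul_le_mul hm hm (by norm_num) hm0.le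
    linarith
  have b2 : m * 16 ≤ m ^ 3 := by
    have := mul_le_mul_of_nonneg_left b0 hm0.le
    linarith
  have b3 : 2880 ≤ n := by linarith
  have b4 : m ^ 2 * 4 * n ≤ m ^ 3 * n := mul_le_mul_of_nonneg_right b1 hn0.le
  have b5 : m * 16 * n ≤ m ^ 3 * n := mul_le_mul_of_nonneg_right b2 hn0.le
  have b6 : m ^ 3 * 2880 ≤ m ^ 3 * n := mul_le_mul_of_nonneg_left b3 hm3.le
  have h11 : (8 * m ^ 2 + 4) * (12 * m + 4 * m * n) + 8 * m ^ 2 * (m + 1) * n =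
      40 * (m ^ 3 * n) + 2 * (m ^ 2 * 4 * n) + m * 16 * n + 96 * m ^ 3 + 48 * m := by ring
  linarith

/-- Main theorem. -/
theorem window {H : Finset (Finset V)} {m : ℕ} (hm : 4 ≤ m) (three : ∀ L ∈ H, L.card = 3)
    (lin : ∀ L ∈ H, ∀ M ∈ H, L ≠ M → (L ∩ M).card ≤ 1)
    (hn : 45 * m ^ 3 ≤ Fintype.card V)
    (hden : (8 * (m : ℤ) ^ 2 + 4) * ((Fintype.card V : ℤ) ^ 2 - 6 * H.card) ≤
      (Fintype.card V : ℤ) ^ 2)
    {C : Finset (Finset V)} (hC : C ⊆ H) :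
    ∃ S : Finset (Finset V), (S ⊆ C ∨ S ⊆ H \ C) ∧ m ≤ S.card ∧ S.card ≤ 2 * m ∧
      (pts S).card ≤ S.card + 3 := by
  by_contra hcon
  push Not at hcon
  have wf1 : WF C m := by
    intro S hS h1 h2
    by_contra h3
    have := hcon S (Or.inl hS) (by omega) h1
    omega
  have wf2 : WF (H \ C) m := by
    intro S hS h1 h2
    by_contra h3
    have := hcon S (Or.inr hS) (by omega) h1
    omega
  have hDH : H \ C ⊆ H := sdiff_subset
  obtain ⟨R, hR, gR, cR⟩ := clean (fun L hL => three L (hC hL))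
    (fun L hL M hM => lin L (hC hL) M (hC hM)) wf1 hm
  obtain ⟨Q, hQ, gQ, cQ⟩ := clean (fun L hL => three L (hDH hL))
    (fun L hL M hM => lin L (hDH hL) M (hDH hM)) wf2 hm
  have hdis : Disjoint R Q := by
    rw [disjoint_left]
    intro L h1 h2
    exact (mem_sdiff.1 (hQ h2)).2 (hR h1)
  have G := goodman lin (hR.trans hC) (hQ.trans hDH) hdis
  have k1 := gR.colour
  have k2 := gQ.colour
  have s1 := sum_rd gR.three gR.lin
  have s2 := sum_rd gQ.three gQ.lin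
  have s3 := sum_rd three lin
  -- cards
  have hcardH : H.card = C.card + (H \ C).card := by
    have := card_sdiff_add_card_eq_card hC; omega
  have hcardC : C.card = R.card + (C \ R).card := by
    have := card_sdiff_add_card_eq_card hR; omega
  have hcardD : (H \ C).card = Q.card + ((H \ C) \ Q).card := by
    have := card_sdiff_add_card_eq_card hQ; omega
  set n := Fintype.card V with hnn
  have hHn : 6 * H.card ≤ n ^ 2 := by
    rw [← s3]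
    calc ∑ x : V, rd H x ≤ ∑ x : V, n := by
          apply sum_le_sum
          intro x _
          exact card_le_univ _
      _ = n ^ 2 := by simp [sq, hnn]
  have hRQ : R.card + Q.card ≤ H.card := by omega
  -- Cauchy
  have cs : ((6 * ((R.card : ℤ) + Q.card))) ^ 2 ≤
      2 * (n : ℤ) * ∑ x : V, (((rd R x : ℤ)) ^ 2 + ((rd Q x : ℤ)) ^ 2) := by
    have e : (6 * ((R.card : ℤ) + Q.card)) = ∑ x : V, ((rd R x : ℤ) + (rd Q x : ℤ)) := by
      rw [sum_add_distrib]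
      have s1' : (∑ x : V, (rd R x : ℤ)) = 6 * R.card := by exact_mod_cast s1
      have s2' : (∑ x : V, (rd Q x : ℤ)) = 6 * Q.card := by exact_mod_cast s2
      rw [s1', s2']; ring
    rw [e]
    have h1 := sq_sum_le_card_mul_sum_sq (s := (univ : Finset V))
      (f := fun x => ((rd R x : ℤ) + (rd Q x : ℤ)))
    have h2 : ∑ x : V, ((rd R x : ℤ) + (rd Q x : ℤ)) ^ 2 ≤
        ∑ x : V, 2 * (((rd R x : ℤ)) ^ 2 + ((rd Q x : ℤ)) ^ 2) := by
      apply sum_le_sum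
      intro x _
      nlinarith [sq_nonneg ((rd R x : ℤ) - (rd Q x : ℤ))]
    rw [← mul_sum] at h2
    have h3 : ((univ : Finset V).card : ℤ) = n := by rw [card_univ]
    rw [h3] at h1
    have hn0 : (0 : ℤ) ≤ n := by positivity
    have := mul_le_mul_of_nonneg_left h2 hn0
    calc _ ≤ _ := h1
      _ ≤ _ := this
      _ = _ := by ring
  have G' : 3 * ∑ x : V, (((rd R x : ℤ)) ^ 2 + ((rd Q x : ℤ)) ^ 2) ≤
      (n : ℤ) ^ 3 + 2 * (((TR R).card : ℤ) + (TR Q).card) := by exact_mod_cast G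
  refine numeric (n : ℤ) (m : ℤ) (6 * H.card) (6 * ((R.card : ℤ) + Q.card))
    (∑ x : V, (((rd R x : ℤ)) ^ 2 + ((rd Q x : ℤ)) ^ 2))
    (((TR R).card : ℤ) + (TR Q).card) (by exact_mod_cast hm) (by exact_mod_cast hn) hden
    ?_ ?_ G' ?_ cs
  · have : 6 * H.card ≤ 6 * (R.card + Q.card) + 12 * m + 4 * m * n := by nlinarith
    exact_mod_cast this
  · have : 6 * (R.card + Q.card) ≤ n ^ 2 := by omega
    exact_mod_cast this
  · rw [sum_add_distrib]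
    have := add_le_add k1 k2
    nlinarith

end Pool.Agent.H155R2.BESR
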