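import Pool.Agent.H155R2.BESR.Count

namespace Pool.Agent.H155R2.BESR

open Finset

variable {V : Type*} [DecidableEq V] [Fintype V]

lemma sum_adj (R : Finset (Finset V)) (x : V) :
    ∑ y : V, ∑ z : V, (if adj R x y ∧ adj R x z then 1 else 0) = (rd R x) ^ 2 := by
  have h1 : ∀ y z : V, (if adj R x y ∧ adj R x z then 1 else 0) =
      (if adj R x y then 1 else 0) * (if adj R x z then 1 else 0) := by
    intro y z
    by_cases h1 : adj R x y <;> by_cases h2 : adj R x z <;> simp [h1, h2]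
  simp_rw [h1]
  rw [← sum_mul_sum, ← card_filter]
  unfold rd
  rw [sq]

lemma pointwise (a1 a2 a3 b1 b2 b3 : Prop) [Decidable a1] [Decidable a2] [Decidable a3]
    [Decidable b1] [Decidable b2] [Decidable b3] (h1 : ¬ (a1 ∧ b1)) (h2 : ¬ (a2 ∧ b2))
    (h3 : ¬ (a3 ∧ b3)) :
    ((if a1 ∧ a3 then 1 else 0) + (if b1 ∧ b3 then 1 else 0)) +
    ((if a1 ∧ a2 then 1 else 0) + (if b1 ∧ b2 then 1 else 0)) +
    ((if a3 ∧ a2 then 1 else 0) + (if b3 ∧ b2 then 1 else 0)) ≤
    1 + 2 * ((if a1 ∧ a2 ∧ a3 then 1 else 0) + (if b1 ∧ b2 ∧ b3 then 1 else 0)) := by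
  by_cases a1 <;> by_cases a2 <;> by_cases a3 <;> by_cases b1 <;> by_cases b2 <;>
    by_cases b3 <;> simp_all

lemma card_TR (R : Finset (Finset V)) : (TR R).card =
    ∑ x : V, ∑ y : V, ∑ z : V, (if adj R x y ∧ adj R y z ∧ adj R x z then 1 else 0) := by
  unfold TR
  rw [card_filter]
  rw [Fintype.sum_prod_type]
  apply sum_congr rfl
  intro x _
  rw [Fintype.sum_prod_type]

theorem goodman {H R Q : Finset (Finset V)}
    (lin : ∀ L ∈ H, ∀ M ∈ H, L ≠ M → (L ∩ M).card ≤ 1) (hR : R ⊆ H) (hQ : Q ⊆ H)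
    (hd : Disjoint R Q) :
    3 * ∑ x, ((rd R x) ^ 2 + (rd Q x) ^ 2) ≤
      (Fintype.card V) ^ 3 + 2 * ((TR R).card + (TR Q).card) := by
  have hno : ∀ x y, ¬ (adj R x y ∧ adj Q x y) := by
    rintro x y ⟨⟨hxy, L, hL, h1, h2⟩, ⟨_, M, hM, h3, h4⟩⟩
    have := line_uniq lin (hR hL) (hQ hM) hxy h1 h2 h3 h4
    subst this
    exact disjoint_left.1 hd hL hM
  have e1 : ∑ x : V, ∑ y : V, ∑ z : V,
      (((if adj R x y ∧ adj R x z then 1 else 0) + (if adj Q x y ∧ adj Q x z then 1 else 0)) : ℕ)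
      = ∑ x, ((rd R x) ^ 2 + (rd Q x) ^ 2) := by
    apply sum_congr rfl
    intro x _
    rw [← sum_adj R x, ← sum_adj Q x, ← sum_add_distrib]
    apply sum_congr rfl
    intro y _
    rw [← sum_add_distrib]
  have e2 : ∑ x : V, ∑ y : V, ∑ z : V,
      (((if adj R x y ∧ adj R y z then 1 else 0) + (if adj Q x y ∧ adj Q y z then 1 else 0)) : ℕ)
      = ∑ x, ((rd R x) ^ 2 + (rd Q x) ^ 2) := by
    rw [sum_comm, ← e1]
    apply sum_congr rfl
    intro y _
    apply sum_congr rfl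
    intro x _
    apply sum_congr rfl
    intro z _
    exact congrArg₂ (· + ·) (if_congr (and_congr adj_comm Iff.rfl) rfl rfl)
      (if_congr (and_congr adj_comm Iff.rfl) rfl rfl)
  have e3 : ∑ x : V, ∑ y : V, ∑ z : V,
      (((if adj R x z ∧ adj R y z then 1 else 0) + (if adj Q x z ∧ adj Q y z then 1 else 0)) : ℕ)
      = ∑ x, ((rd R x) ^ 2 + (rd Q x) ^ 2) := by
    have : ∀ x : V, ∑ y : V, ∑ z : V,
      (((if adj R x z ∧ adj R y z then 1 else 0) + (if adj Q x z ∧ adj Q y z then 1 else 0)) : ℕ)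
      = ∑ z : V, ∑ y : V,
      (((if adj R x z ∧ adj R y z then 1 else 0) +
        (if adj Q x z ∧ adj Q y z then 1 else 0)) : ℕ) := by
      intro x; rw [sum_comm]
    simp_rw [this]
    rw [sum_comm, ← e1]
    apply sum_congr rfl
    intro z _
    apply sum_congr rfl
    intro x _
    apply sum_congr rfl
    intro y _
    exact congrArg₂ (· + ·) (if_congr (and_congr adj_comm adj_comm) rfl rfl)
      (if_congr (and_congr adj_comm adj_comm) rfl rfl)
  have key : ∑ x : V, ∑ y : V, ∑ z : V,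
      (((if adj R x y ∧ adj R x z then 1 else 0) + (if adj Q x y ∧ adj Q x z then 1 else 0)) +
      ((if adj R x y ∧ adj R y z then 1 else 0) + (if adj Q x y ∧ adj Q y z then 1 else 0)) +
      ((if adj R x z ∧ adj R y z then 1 else 0) + (if adj Q x z ∧ adj Q y z then 1 else 0)) : ℕ)
      ≤ ∑ x : V, ∑ y : V, ∑ z : V, (1 + 2 * ((if adj R x y ∧ adj R y z ∧ adj R x z then 1 else 0)
        + (if adj Q x y ∧ adj Q y z ∧ adj Q x z then 1 else 0))) := by
    apply sum_le_sum; intro x _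
    apply sum_le_sum; intro y _
    apply sum_le_sum; intro z _
    exact pointwise _ _ _ _ _ _ (hno x y) (hno y z) (hno x z)
  have hl : ∑ x : V, ∑ y : V, ∑ z : V,
      (((if adj R x y ∧ adj R x z then 1 else 0) + (if adj Q x y ∧ adj Q x z then 1 else 0)) +
      ((if adj R x y ∧ adj R y z then 1 else 0) + (if adj Q x y ∧ adj Q y z then 1 else 0)) +
      ((if adj R x z ∧ adj R y z then 1 else 0) + (if adj Q x z ∧ adj Q y z then 1 else 0)) : ℕ)
      = 3 * ∑ x, ((rd R x) ^ 2 + (rd Q x) ^ 2) := by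
    simp only [sum_add_distrib] at e1 e2 e3 ⊢
    omega
  have hr : ∑ x : V, ∑ y : V, ∑ z : V,
      (1 + 2 * ((if adj R x y ∧ adj R y z ∧ adj R x z then 1 else 0)
        + (if adj Q x y ∧ adj Q y z ∧ adj Q x z then 1 else 0))) =
      (Fintype.card V) ^ 3 + 2 * ((TR R).card + (TR Q).card) := by
    rw [card_TR, card_TR]
    simp only [sum_add_distrib, ← mul_sum]
    simp only [sum_const, card_univ, smul_eq_mul, mul_one]
    ring
  rw [hl, hr] at key
  exact key

end Pool.Agent.H155R2.BESR
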