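import Mathlib

namespace Pool.Agent.H155R2.BESR

open Finset

variable {V : Type*} [DecidableEq V]

/-- The points covered by a set of lines. -/
def pts (S : Finset (Finset V)) : Finset V := S.biUnion id

lemma mem_pts {S : Finset (Finset V)} {x : V} : x ∈ pts S ↔ ∃ L ∈ S, x ∈ L := by
  simp [pts]

lemma pts_union (S T : Finset (Finset V)) : pts (S ∪ T) = pts S ∪ pts T := by
  ext x
  simp only [mem_pts, mem_union]
  constructor
  · rintro ⟨L, h | h, hx⟩
    · exact Or.inl ⟨L, h, hx⟩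
    · exact Or.inr ⟨L, h, hx⟩
  · rintro (⟨L, h, hx⟩ | ⟨L, h, hx⟩)
    · exact ⟨L, Or.inl h, hx⟩
    · exact ⟨L, Or.inr h, hx⟩

lemma pts_mono {S T : Finset (Finset V)} (h : S ⊆ T) : pts S ⊆ pts T := by
  intro x hx
  obtain ⟨L, hL, hxL⟩ := mem_pts.1 hx
  exact mem_pts.2 ⟨L, h hL, hxL⟩

lemma subset_pts {S : Finset (Finset V)} {L : Finset V} (h : L ∈ S) : L ⊆ pts S :=
  fun _ hx => mem_pts.2 ⟨L, h, hx⟩

lemma submod (S T : Finset (Finset V)) :
    (pts (S ∪ T)).card + (pts (S ∩ T)).card ≤ (pts S).card + (pts T).card := by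
  have h1 : pts (S ∩ T) ⊆ pts S ∩ pts T :=
    subset_inter (pts_mono inter_subset_left) (pts_mono inter_subset_right)
  have h2 := card_union_add_card_inter (pts S) (pts T)
  have h3 := card_le_card h1
  rw [pts_union]
  omega

/-- A set of lines with blocks (maximal subsets spanning `size + 2` points). -/
structure Cfg (P : Finset (Finset V)) (B : Finset V → Finset (Finset V)) : Prop where
  three : ∀ L ∈ P, L.card = 3
  lin : ∀ L ∈ P, ∀ M ∈ P, L ≠ M → (L ∩ M).card ≤ 1
  selfB : ∀ L ∈ P, L ∈ B L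
  subB : ∀ L ∈ P, B L ⊆ P
  eqB : ∀ L ∈ P, ∀ M ∈ B L, B M = B L
  vB : ∀ L ∈ P, (pts (B L)).card ≤ (B L).card + 2
  F2 : ∀ S ⊆ P, S.Nonempty → S.card + 2 ≤ (pts S).card
  F3 : ∀ S ⊆ P, ∀ L ∈ S, ∀ M ∈ S, M ∉ B L → S.card + 3 ≤ (pts S).card

/-- lines of `P` outside the block of `L` that meet `L`. -/
def nb (P : Finset (Finset V)) (B : Finset V → Finset (Finset V)) (L : Finset V) :
    Finset (Finset V) :=
  P.filter (fun M => M ∉ B L ∧ (M ∩ L).Nonempty)

/-- number of lines through `x`, outside the block of `L`, that meet `L`. -/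
def jn (P : Finset (Finset V)) (B : Finset V → Finset (Finset V)) (x : V) (L : Finset V) : ℕ :=
  ((nb P B L).filter (fun M => x ∈ M)).card

lemma mem_nb {P : Finset (Finset V)} {B : Finset V → Finset (Finset V)} {L M : Finset V} :
    M ∈ nb P B L ↔ M ∈ P ∧ M ∉ B L ∧ (M ∩ L).Nonempty := by
  simp [nb]

section
variable {P : Finset (Finset V)} {B : Finset V → Finset (Finset V)}

lemma Cfg.symB (h : Cfg P B) {L M : Finset V} (_hL : L ∈ P) (hM : M ∈ P) (hML : M ∉ B L) :
    L ∉ B M := by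
  intro hLM
  apply hML
  rw [h.eqB M hM L hLM]
  exact h.selfB M hM

lemma Cfg.nb_symm (h : Cfg P B) {L M : Finset V} (hL : L ∈ P) (hM : M ∈ nb P B L) :
    L ∈ nb P B M := by
  rw [mem_nb] at hM ⊢
  refine ⟨hL, h.symB hL hM.1 hM.2.1, ?_⟩
  rw [inter_comm]
  exact hM.2.2

lemma Cfg.vB' (h : Cfg P B) {L : Finset V} (hL : L ∈ P) :
    (pts (B L)).card = (B L).card + 2 :=
  le_antisymm (h.vB L hL) (h.F2 _ (h.subB L hL) ⟨L, h.selfB L hL⟩)

lemma Cfg.out_meet (h : Cfg P B) {L M : Finset V} (hL : L ∈ P) (hM : M ∈ P) (hML : M ∉ B L) :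
    (M ∩ pts (B L)).card ≤ 1 := by
  have h1 := h.F3 (insert M (B L)) (by
    intro x hx
    rcases mem_insert.1 hx with rfl | hx
    · exact hM
    · exact h.subB L hL hx) L (mem_insert_of_mem (h.selfB L hL)) M (mem_insert_self _ _) hML
  rw [card_insert_of_notMem hML] at h1
  have h2 : pts (insert M (B L)) = M ∪ pts (B L) := by
    ext x; simp [mem_pts]
  rw [h2] at h1
  have h3 := card_union_add_card_inter M (pts (B L))
  have h4 := h.vB L hL
  have h5 := h.three M hM
  omega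

lemma Cfg.nb_inter (h : Cfg P B) {L M : Finset V} (hL : L ∈ P) (hM : M ∈ nb P B L) :
    M ∩ pts (B L) = M ∩ L := by
  rw [mem_nb] at hM
  have h1 := h.out_meet hL hM.1 hM.2.1
  have hsub : M ∩ L ⊆ M ∩ pts (B L) :=
    inter_subset_inter_left (subset_pts (h.selfB L hL))
  symm
  apply eq_of_subset_of_card_le hsub
  have := card_pos.2 hM.2.2
  omega

lemma Cfg.nb_card_inter (h : Cfg P B) {L M : Finset V} (hL : L ∈ P) (hM : M ∈ nb P B L) :
    (M ∩ L).card = 1 := by
  have h2 := h.nb_inter hL hM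
  rw [mem_nb] at hM
  have h1 := h.out_meet hL hM.1 hM.2.1
  rw [h2] at h1
  have := card_pos.2 hM.2.2
  omega

lemma Cfg.nb_sdiff (h : Cfg P B) {L M : Finset V} (hL : L ∈ P) (hM : M ∈ nb P B L) :
    (M \ L).card = 2 := by
  have h1 := h.nb_card_inter hL hM
  have h2 := h.three M (mem_nb.1 hM).1
  have h3 := card_sdiff_add_card_inter M L
  omega

/-- the points outside `L` joined to `L`. -/
def XX (P : Finset (Finset V)) (B : Finset V → Finset (Finset V)) (L : Finset V) : Finset V :=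
  (nb P B L).biUnion (fun M => M \ L)

lemma mem_XX {L : Finset V} {x : V} : x ∈ XX P B L ↔ x ∉ L ∧ ∃ M ∈ nb P B L, x ∈ M := by
  simp only [XX, mem_biUnion, mem_sdiff]
  constructor
  · rintro ⟨M, hM, h1, h2⟩
    exact ⟨h2, M, hM, h1⟩
  · rintro ⟨h2, M, hM, h1⟩
    exact ⟨M, hM, h1, h2⟩

lemma jn_pos_iff {L : Finset V} {x : V} : 0 < jn P B x L ↔ ∃ M ∈ nb P B L, x ∈ M := by
  unfold jn
  rw [card_pos]
  constructor
  · rintro ⟨M, hM⟩
    exact ⟨M, (mem_filter.1 hM).1, (mem_filter.1 hM).2⟩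
  · rintro ⟨M, hM, hx⟩
    exact ⟨M, mem_filter.2 ⟨hM, hx⟩⟩

lemma Cfg.sum_jn (h : Cfg P B) {L : Finset V} (hL : L ∈ P) :
    ∑ x ∈ XX P B L, jn P B x L = 2 * (nb P B L).card := by
  have h1 : ∑ x ∈ XX P B L, jn P B x L =
      ∑ x ∈ XX P B L, ∑ M ∈ nb P B L, (if x ∈ M then 1 else 0) := by
    apply sum_congr rfl
    intro x _
    unfold jn
    rw [card_filter]
  rw [h1, sum_comm]
  have h2 : ∀ M ∈ nb P B L, ∑ x ∈ XX P B L, (if x ∈ M then 1 else 0) = 2 := by
    intro M hM
    rw [← card_filter]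
    rw [← h.nb_sdiff hL hM]
    congr 1
    ext x
    simp only [mem_filter, mem_XX, mem_sdiff]
    constructor
    · rintro ⟨⟨h1, _⟩, h2⟩
      exact ⟨h2, h1⟩
    · rintro ⟨h1, h2⟩
      exact ⟨⟨h2, M, hM, h1⟩, h1⟩
  rw [sum_congr rfl h2]
  simp [mul_comm]

lemma Cfg.jn_le (h : Cfg P B) {L : Finset V} (hL : L ∈ P) {x : V} (hx : x ∉ L) :
    jn P B x L ≤ 3 := by
  unfold jn
  have h1 : ((nb P B L).filter (fun M => x ∈ M)).card ≤ (L.powersetCard 1).card := by
    apply card_le_card_of_injOn (fun M => M ∩ L)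
    · intro M hM
      rw [mem_coe, mem_filter] at hM
      rw [mem_coe, mem_powersetCard]
      exact ⟨inter_subset_right, h.nb_card_inter hL hM.1⟩
    · intro M hM M' hM' heq
      rw [mem_coe, mem_filter] at hM hM'
      by_contra hne
      have hMP := (mem_nb.1 hM.1).1
      have hMP' := (mem_nb.1 hM'.1).1
      have hl := h.lin M hMP M' hMP' hne
      have hc := h.nb_card_inter hL hM.1
      obtain ⟨p, hp⟩ := card_pos.1 (by rw [hc]; exact Nat.one_pos)
      have hp' : p ∈ M' ∩ L := by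
        have : M ∩ L = M' ∩ L := heq
        rw [← this]; exact hp
      rw [mem_inter] at hp hp'
      have hxp : x ≠ p := fun e => hx (e ▸ hp.2)
      have hsub : ({x, p} : Finset V) ⊆ M ∩ M' := by
        intro y hy
        rcases mem_insert.1 hy with rfl | hy
        · exact mem_inter.2 ⟨hM.2, hM'.2⟩
        · rw [mem_singleton] at hy
          subst hy
          exact mem_inter.2 ⟨hp.1, hp'.1⟩
      have := card_le_card hsub
      rw [card_pair hxp] at this
      omega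
  rw [card_powersetCard, h.three L hL] at h1
  simpa using h1

/-- the star of `L`. -/
def SS (P : Finset (Finset V)) (B : Finset V → Finset (Finset V)) (L : Finset V) :
    Finset (Finset V) := B L ∪ nb P B L

lemma Cfg.card_SS (L : Finset V) :
    (SS P B L).card = (B L).card + (nb P B L).card := by
  unfold SS
  apply card_union_of_disjoint
  rw [disjoint_left]
  intro M hM hM'
  exact (mem_nb.1 hM').2.1 hM

lemma Cfg.SS_sub (h : Cfg P B) {L : Finset V} (hL : L ∈ P) : SS P B L ⊆ P :=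
  union_subset (h.subB L hL) (filter_subset _ _)

lemma Cfg.pts_SS (h : Cfg P B) {L : Finset V} (hL : L ∈ P) :
    (pts (SS P B L)).card = (B L).card + 2 + (XX P B L).card := by
  have h1 : pts (SS P B L) = pts (B L) ∪ XX P B L := by
    unfold SS
    rw [pts_union]
    ext x
    simp only [mem_union, mem_XX]
    constructor
    · rintro (h1 | h1)
      · exact Or.inl h1
      · by_cases hx : x ∈ L
        · exact Or.inl (subset_pts (h.selfB L hL) hx)
        · obtain ⟨M, hM, hxM⟩ := mem_pts.1 h1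
          exact Or.inr ⟨hx, M, hM, hxM⟩
    · rintro (h1 | ⟨_, M, hM, hxM⟩)
      · exact Or.inl h1
      · exact Or.inr (mem_pts.2 ⟨M, hM, hxM⟩)
  rw [h1, card_union_of_disjoint, h.vB' hL]
  rw [disjoint_left]
  intro x hx hx'
  obtain ⟨hxL, M, hM, hxM⟩ := mem_XX.1 hx'
  have : x ∈ M ∩ pts (B L) := mem_inter.2 ⟨hxM, hx⟩
  rw [h.nb_inter hL hM] at this
  exact hxL (mem_inter.1 this).2

/-- the excess of the star of `L`. -/
def aa (P : Finset (Finset V)) (B : Finset V → Finset (Finset V)) (L : Finset V) : ℤ :=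
  ((pts (SS P B L)).card : ℤ) - (SS P B L).card - 2

lemma Cfg.aa_eq (h : Cfg P B) {L : Finset V} (hL : L ∈ P) :
    aa P B L = (XX P B L).card - (nb P B L).card := by
  unfold aa
  rw [h.pts_SS hL, Cfg.card_SS]
  push_cast
  ring

lemma Cfg.aa_pos (h : Cfg P B) {L : Finset V} (hL : L ∈ P) (hn : (nb P B L).Nonempty) :
    1 ≤ aa P B L := by
  obtain ⟨M, hM⟩ := hn
  have := h.F3 (SS P B L) (h.SS_sub hL) L (mem_union_left _ (h.selfB L hL)) M
    (mem_union_right _ hM) (mem_nb.1 hM).2.1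
  unfold aa
  omega

lemma Cfg.aa_zero (h : Cfg P B) {L : Finset V} (hL : L ∈ P) (hn : ¬ (nb P B L).Nonempty) :
    aa P B L = 0 := by
  rw [h.aa_eq hL]
  rw [not_nonempty_iff_eq_empty] at hn
  simp [XX, hn]

/-- per line identity -/
lemma Cfg.line_sum (h : Cfg P B) {L : Finset V} (hL : L ∈ P) :
    ∑ x ∈ XX P B L, ((jn P B x L : ℤ) * (2 - jn P B x L)) =
      2 * aa P B L - 2 * ((XX P B L).filter (fun x => jn P B x L = 3)).card := by
  have h1 : ∀ x ∈ XX P B L, ((jn P B x L : ℤ) * (2 - jn P B x L)) =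
      (2 - jn P B x L) - 2 * (if jn P B x L = 3 then 1 else 0) := by
    intro x hx
    obtain ⟨hxL, hM⟩ := mem_XX.1 hx
    have hp : 0 < jn P B x L := jn_pos_iff.2 hM
    have hle := h.jn_le hL hxL
    interval_cases (jn P B x L) <;> simp
  rw [sum_congr rfl h1, sum_sub_distrib, sum_sub_distrib, ← mul_sum]
  have h2 : (∑ x ∈ XX P B L, (jn P B x L : ℤ)) = 2 * (nb P B L).card := by
    have := h.sum_jn hL
    exact_mod_cast this
  rw [h2, h.aa_eq hL]
  simp only [sum_const, nsmul_eq_mul, card_filter]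
  push_cast
  ring

end

end Pool.Agent.H155R2.BESR
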