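import Pool.Agent.H155R2.BESR.Vertex

namespace Pool.Agent.H155R2.BESR

open Finset

variable {V : Type*} [DecidableEq V]
variable {P : Finset (Finset V)} {B : Finset V → Finset (Finset V)}

/-- active lines -/
def Act (P : Finset (Finset V)) (B : Finset V → Finset (Finset V)) : Finset (Finset V) :=
  P.filter (fun L => (nb P B L).Nonempty)

lemma mem_Act {L : Finset V} : L ∈ Act P B ↔ L ∈ P ∧ (nb P B L).Nonempty := by simp [Act]

lemma Cfg.act_ineq (h : Cfg P B) {w : V} (hw : w ∈ pts (Act P B)) :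
    (3 : ℤ) - ((Act P B).filter (fun L => w ∈ L)).card ≤
      2 * ((∑ L ∈ (Act P B).filter (fun L => w ∈ L), aa P B L) - 3 * (QQ P B w).card) := by
  by_cases hq : (QQ P B w).Nonempty
  · have e : (Act P B).filter (fun L => w ∈ L) = DD P w := by
      ext L
      simp only [mem_filter, mem_Act, mem_DD]
      constructor
      · rintro ⟨⟨h1, _⟩, h2⟩; exact ⟨h1, h2⟩
      · rintro ⟨h1, h2⟩; exact ⟨⟨h1, h.DD_nb hq (mem_DD.2 ⟨h1, h2⟩)⟩, h2⟩
    rw [e]
    exact h.vertex hq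
  · rw [not_nonempty_iff_eq_empty] at hq
    rw [hq]
    simp only [card_empty, Nat.cast_zero, mul_zero, sub_zero]
    have h1 : ∑ L ∈ (Act P B).filter (fun L => w ∈ L), (1 : ℤ) ≤
        ∑ L ∈ (Act P B).filter (fun L => w ∈ L), aa P B L := by
      apply sum_le_sum
      intro L hL
      have hL' := mem_Act.1 (mem_filter.1 hL).1
      exact h.aa_pos hL'.1 hL'.2
    simp only [sum_const, nsmul_eq_mul, mul_one] at h1
    have h2 : 0 < ((Act P B).filter (fun L => w ∈ L)).card := by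
      rw [card_pos]
      obtain ⟨L, hL, hwL⟩ := mem_pts.1 hw
      exact ⟨L, mem_filter.2 ⟨hL, hwL⟩⟩
    have h3 : (1 : ℤ) ≤ ((Act P B).filter (fun L => w ∈ L)).card := by exact_mod_cast h2
    linarith

lemma sum_pts {A : Finset (Finset V)} (f : Finset V → ℤ) (h3 : ∀ L ∈ A, L.card = 3) :
    ∑ w ∈ pts A, ∑ L ∈ A.filter (fun L => w ∈ L), f L = 3 * ∑ L ∈ A, f L := by
  have h1 : ∑ w ∈ pts A, ∑ L ∈ A.filter (fun L => w ∈ L), f L =
      ∑ L ∈ A, ∑ w ∈ L, f L := by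
    apply sum_comm'
    intro w L
    simp only [mem_filter]
    constructor
    · rintro ⟨_, h1, h2⟩; exact ⟨h2, h1⟩
    · rintro ⟨h2, h1⟩; exact ⟨mem_pts.2 ⟨L, h1, h2⟩, h1, h2⟩
  rw [h1, mul_sum]
  apply sum_congr rfl
  intro L hL
  simp [h3 L hL]

/-- the main local inequality -/
theorem Cfg.star (h : Cfg P B) (hne : ∃ L ∈ P, (nb P B L).Nonempty) :
    2 ≤ ∑ L ∈ P, ∑ x ∈ XX P B L, ((jn P B x L : ℤ) * (2 - jn P B x L)) := by
  have e1 : ∑ L ∈ P, ∑ x ∈ XX P B L, ((jn P B x L : ℤ) * (2 - jn P B x L)) =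
      2 * ∑ L ∈ P, aa P B L -
        2 * ∑ L ∈ P, (((XX P B L).filter (fun x => jn P B x L = 3)).card : ℤ) := by
    rw [mul_sum, mul_sum, ← sum_sub_distrib]
    exact sum_congr rfl (fun L hL => h.line_sum hL)
  have e2 : ∑ L ∈ P, aa P B L = ∑ L ∈ Act P B, aa P B L := by
    symm
    apply sum_subset (filter_subset _ _)
    intro L hL hL'
    apply h.aa_zero hL
    intro hc
    exact hL' (mem_Act.2 ⟨hL, hc⟩)
  have e3 : ∑ L ∈ P, (((XX P B L).filter (fun x => jn P B x L = 3)).card : ℤ) =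
      ∑ w ∈ pts (Act P B), ((QQ P B w).card : ℤ) := by
    have : ∑ L ∈ P, ∑ x ∈ (XX P B L).filter (fun x => jn P B x L = 3), (1 : ℤ) =
        ∑ w ∈ pts (Act P B), ∑ L ∈ QQ P B w, (1 : ℤ) := by
      apply sum_comm'
      intro L x
      simp only [mem_filter, mem_QQ, mem_XX]
      constructor
      · rintro ⟨hL, ⟨hx, M, hM, hxM⟩, hj⟩
        refine ⟨⟨hL, hx, hj⟩, mem_pts.2 ⟨M, mem_Act.2 ⟨(mem_nb.1 hM).1, L, h.nb_symm hL hM⟩, hxM⟩⟩
      · rintro ⟨⟨hL, hx, hj⟩, _⟩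
        have hp : 0 < jn P B x L := by omega
        exact ⟨hL, ⟨hx, jn_pos_iff.1 hp⟩, hj⟩
    simpa using this
  have h3 : ∀ L ∈ Act P B, L.card = 3 := fun L hL => h.three L (mem_Act.1 hL).1
  have s1 : ∑ w ∈ pts (Act P B), ((3 : ℤ) - ((Act P B).filter (fun L => w ∈ L)).card) ≤
      ∑ w ∈ pts (Act P B),
        2 * ((∑ L ∈ (Act P B).filter (fun L => w ∈ L), aa P B L) - 3 * (QQ P B w).card) :=
    sum_le_sum (fun w hw => h.act_ineq hw)
  rw [← mul_sum, sum_sub_distrib, sum_sub_distrib, sum_pts _ h3, ← mul_sum] at s1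
  have e4 : ∑ w ∈ pts (Act P B), (((Act P B).filter (fun L => w ∈ L)).card : ℤ) =
      3 * (Act P B).card := by
    have := sum_pts (A := Act P B) (fun _ => 1) h3
    simpa using this
  rw [e4] at s1
  simp only [sum_const, nsmul_eq_mul] at s1
  have hA : (Act P B).Nonempty := by
    obtain ⟨L, hL, hn⟩ := hne
    exact ⟨L, mem_Act.2 ⟨hL, hn⟩⟩
  have h2 := h.F2 (Act P B) (filter_subset _ _) hA
  have h2' : ((Act P B).card : ℤ) + 2 ≤ (pts (Act P B)).card := by exact_mod_cast h2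
  rw [e1, e2, e3]
  set Sa := ∑ L ∈ Act P B, aa P B L
  set Sq := ∑ w ∈ pts (Act P B), ((QQ P B w).card : ℤ)
  have : 6 ≤ 6 * (Sa - Sq) := by linarith
  linarith

end Pool.Agent.H155R2.BESR
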