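import Pool.Agent.H155R2.BESR.Star

namespace Pool.Agent.H155R2.BESR

open Finset

variable {V : Type*} [DecidableEq V]
variable {P : Finset (Finset V)} {B : Finset V → Finset (Finset V)}

/-- lines through `w` -/
def DD (P : Finset (Finset V)) (w : V) : Finset (Finset V) := P.filter (fun L => w ∈ L)

/-- lines all of whose points are joined to `w` -/
def QQ (P : Finset (Finset V)) (B : Finset V → Finset (Finset V)) (w : V) :
    Finset (Finset V) := P.filter (fun K => w ∉ K ∧ jn P B w K = 3)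

lemma mem_DD {w : V} {L : Finset V} : L ∈ DD P w ↔ L ∈ P ∧ w ∈ L := by simp [DD]

lemma mem_QQ {w : V} {K : Finset V} : K ∈ QQ P B w ↔ K ∈ P ∧ w ∉ K ∧ jn P B w K = 3 := by
  simp [QQ]

lemma Cfg.injOn_inter (h : Cfg P B) {L : Finset V} (hL : L ∈ P) {x : V} (hx : x ∉ L) :
    Set.InjOn (fun M => M ∩ L) (((nb P B L).filter (fun M => x ∈ M) : Finset (Finset V)) :
      Set (Finset V)) := by
  intro M hM M' hM' heq
  rw [mem_coe, mem_filter] at hM hM'
  by_contra hne
  have hMP := (mem_nb.1 hM.1).1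
  have hMP' := (mem_nb.1 hM'.1).1
  have hl := h.lin M hMP M' hMP' hne
  have hc := h.nb_card_inter hL hM.1
  obtain ⟨p, hp⟩ := card_pos.1 (by rw [hc]; exact Nat.one_pos)
  have hp' : p ∈ M' ∩ L := by
    have : M ∩ L = M' ∩ L := heq
    rw [← this]; exact hp
  rw [mem_inter] at hp hp'
  have hxp : x ≠ p := fun e => hx (e ▸ hp.2)
  have hsub : ({x, p} : Finset V) ⊆ M ∩ M' := by
    intro y hy
    rcases mem_insert.1 hy with rfl | hy
    · exact mem_inter.2 ⟨hM.2, hM'.2⟩
    · rw [mem_singleton] at hy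
      subst hy
      exact mem_inter.2 ⟨hp.1, hp'.1⟩
  have := card_le_card hsub
  rw [card_pair hxp] at this
  omega

lemma Cfg.QQ_cover (h : Cfg P B) {w : V} {K : Finset V} (hK : K ∈ QQ P B w) :
    ∀ p ∈ K, ∃ N ∈ nb P B K, w ∈ N ∧ p ∈ N := by
  obtain ⟨hKP, hwK, hj⟩ := mem_QQ.1 hK
  intro p hp
  have h1 : ((nb P B K).filter (fun M => w ∈ M)).image (fun M => M ∩ K) =
      K.powersetCard 1 := by
    apply eq_of_subset_of_card_le
    · intro S hS
      obtain ⟨M, hM, rfl⟩ := mem_image.1 hS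
      rw [mem_powersetCard]
      exact ⟨inter_subset_right, h.nb_card_inter hKP (mem_filter.1 hM).1⟩
    · rw [card_image_of_injOn (h.injOn_inter hKP hwK), card_powersetCard, h.three K hKP]
      have : ((nb P B K).filter (fun M => w ∈ M)).card = 3 := hj
      rw [this]
      decide
  have h2 : ({p} : Finset V) ∈ K.powersetCard 1 := by
    rw [mem_powersetCard]
    exact ⟨by simpa using hp, card_singleton p⟩
  rw [← h1] at h2
  obtain ⟨N, hN, hNe⟩ := mem_image.1 h2
  rw [mem_filter] at hN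
  refine ⟨N, hN.1, hN.2, ?_⟩
  have : p ∈ N ∩ K := by
    have e : N ∩ K = {p} := hNe
    rw [e]; simp
  exact (mem_inter.1 this).1

/-- two points of a line outside a block cannot both be covered by the block -/
lemma Cfg.no_two (h : Cfg P B) {M N : Finset V} (hM : M ∈ P) (hN : N ∈ P) (hNM : N ∉ B M)
    {p w : V} (hpw : p ≠ w) (hpN : p ∈ N) (hwN : w ∈ N) (hp : p ∈ pts (B M))
    (hw : w ∈ pts (B M)) : False := by
  have h1 := h.out_meet hM hN hNM
  have hsub : ({p, w} : Finset V) ⊆ N ∩ pts (B M) := by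
    intro y hy
    rcases mem_insert.1 hy with rfl | hy
    · exact mem_inter.2 ⟨hpN, hp⟩
    · rw [mem_singleton] at hy
      subst hy
      exact mem_inter.2 ⟨hwN, hw⟩
  have := card_le_card hsub
  rw [card_pair hpw] at this
  omega

/-- union of the blocks at `w` -/
def WW (P : Finset (Finset V)) (B : Finset V → Finset (Finset V)) (w : V) :
    Finset (Finset V) := (DD P w).biUnion B

lemma mem_WW {w : V} {K : Finset V} : K ∈ WW P B w ↔ ∃ M ∈ DD P w, K ∈ B M := by
  simp [WW]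

lemma Cfg.WW_sub (h : Cfg P B) (w : V) : WW P B w ⊆ P := by
  intro K hK
  obtain ⟨M, hM, hKM⟩ := mem_WW.1 hK
  exact h.subB M (mem_DD.1 hM).1 hKM

lemma Cfg.DD_sub_WW (h : Cfg P B) (w : V) : DD P w ⊆ WW P B w := by
  intro K hK
  exact mem_WW.2 ⟨K, hK, h.selfB K (mem_DD.1 hK).1⟩

lemma Cfg.pts_WW (h : Cfg P B) (w : V) :
    (pts (WW P B w)).card ≤ 1 + (WW P B w).card + ((DD P w).image B).card := by
  have hcardW : (WW P B w).card = ∑ β ∈ (DD P w).image B, β.card := by
    have e : WW P B w = ((DD P w).image B).biUnion id := by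
      ext K
      simp only [mem_WW, mem_biUnion, mem_image, id]
      constructor
      · rintro ⟨M, hM, hK⟩
        exact ⟨B M, ⟨M, hM, rfl⟩, hK⟩
      · rintro ⟨_, ⟨M, hM, rfl⟩, hK⟩
        exact ⟨M, hM, hK⟩
    rw [e, card_biUnion]
    · rfl
    · intro β hβ β' hβ' hne
      obtain ⟨M, hM, rfl⟩ := mem_image.1 (mem_coe.1 hβ)
      obtain ⟨M', hM', rfl⟩ := mem_image.1 (mem_coe.1 hβ')
      show Disjoint (B M) (B M')
      rw [disjoint_left]
      intro K hK hK'
      apply hne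
      rw [← h.eqB M (mem_DD.1 hM).1 K hK, ← h.eqB M' (mem_DD.1 hM').1 K hK']
  have hsub : pts (WW P B w) ⊆ insert w (((DD P w).image B).biUnion (fun β => (pts β).erase w)) := by
    intro x hx
    obtain ⟨K, hK, hxK⟩ := mem_pts.1 hx
    obtain ⟨M, hM, hKM⟩ := mem_WW.1 hK
    by_cases hxw : x = w
    · subst hxw; exact mem_insert_self _ _
    · apply mem_insert_of_mem
      rw [mem_biUnion]
      exact ⟨B M, mem_image_of_mem _ hM, mem_erase.2 ⟨hxw, mem_pts.2 ⟨K, hKM, hxK⟩⟩⟩
  have h1 := card_le_card hsub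
  have h2 := card_insert_le w (((DD P w).image B).biUnion (fun β => (pts β).erase w))
  have h3 : (((DD P w).image B).biUnion (fun β => (pts β).erase w)).card ≤
      ∑ β ∈ (DD P w).image B, ((pts β).erase w).card := card_biUnion_le
  have h4 : ∑ β ∈ (DD P w).image B, ((pts β).erase w).card =
      ∑ β ∈ (DD P w).image B, (β.card + 1) := by
    apply sum_congr rfl
    intro β hβ
    obtain ⟨M, hM, rfl⟩ := mem_image.1 hβ
    have hMP := mem_DD.1 hM
    rw [card_erase_of_mem (subset_pts (h.selfB M hMP.1) hMP.2), h.vB' hMP.1]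
    omega
  rw [sum_add_distrib, ← hcardW] at h4
  simp only [sum_const, smul_eq_mul, mul_one] at h4
  omega

lemma Cfg.QQ_disj (h : Cfg P B) (w : V) : Disjoint (WW P B w) (QQ P B w) := by
  rw [disjoint_left]
  intro K hK hKQ
  obtain ⟨M, hM, hKM⟩ := mem_WW.1 hK
  obtain ⟨hKP, hwK, hj⟩ := mem_QQ.1 hKQ
  obtain ⟨hMP, hwM⟩ := mem_DD.1 hM
  have hKne : K.Nonempty := card_pos.1 (by rw [h.three K hKP]; norm_num)
  obtain ⟨p, hp⟩ := hKne
  obtain ⟨N, hN, hwN, hpN⟩ := h.QQ_cover hKQ p hp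
  rw [mem_nb, h.eqB M hMP K hKM] at hN
  have hpw : p ≠ w := fun e => hwK (e ▸ hp)
  exact h.no_two hMP hN.1 hN.2.1 hpw hpN hwN (mem_pts.2 ⟨K, hKM, hp⟩)
    (mem_pts.2 ⟨M, h.selfB M hMP, hwM⟩)

lemma Cfg.pts_WQ (h : Cfg P B) (w : V) :
    pts (WW P B w ∪ QQ P B w) = pts (WW P B w) := by
  rw [pts_union]
  apply union_eq_left.2
  intro p hp
  obtain ⟨K, hK, hpK⟩ := mem_pts.1 hp
  obtain ⟨N, hN, hwN, hpN⟩ := h.QQ_cover hK p hpK
  exact mem_pts.2 ⟨N, h.DD_sub_WW w (mem_DD.2 ⟨(mem_nb.1 hN).1, hwN⟩), hpN⟩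

lemma Cfg.q_le (h : Cfg P B) {w : V} (hq : (QQ P B w).Nonempty) :
    (QQ P B w).card + 2 ≤ ((DD P w).image B).card := by
  obtain ⟨K, hK⟩ := hq
  obtain ⟨hKP, hwK, hj⟩ := mem_QQ.1 hK
  have hKne : K.Nonempty := card_pos.1 (by rw [h.three K hKP]; norm_num)
  obtain ⟨p, hp⟩ := hKne
  obtain ⟨N, hN, hwN, hpN⟩ := h.QQ_cover hK p hp
  have h1 := h.F3 (WW P B w ∪ QQ P B w)
    (union_subset (h.WW_sub w) (filter_subset _ _)) K (mem_union_right _ hK) N
    (mem_union_left _ (h.DD_sub_WW w (mem_DD.2 ⟨(mem_nb.1 hN).1, hwN⟩))) (mem_nb.1 hN).2.1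
  rw [h.pts_WQ, card_union_of_disjoint (h.QQ_disj w)] at h1
  have h2 := h.pts_WW w
  omega

lemma Cfg.DD_nb (h : Cfg P B) {w : V} (hq : (QQ P B w).Nonempty) {L : Finset V}
    (hL : L ∈ DD P w) : (nb P B L).Nonempty := by
  have h1 := h.q_le hq
  have h0 := card_pos.2 hq
  by_contra hcon
  have h2 : (DD P w).image B ⊆ {B L} := by
    intro β hβ
    obtain ⟨M, hM, rfl⟩ := mem_image.1 hβ
    rw [mem_singleton]
    by_cases hML : M ∈ B L
    · exact h.eqB L (mem_DD.1 hL).1 M hML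
    · exact absurd ⟨M, mem_nb.2 ⟨(mem_DD.1 hM).1, hML,
        ⟨w, mem_inter.2 ⟨(mem_DD.1 hM).2, (mem_DD.1 hL).2⟩⟩⟩⟩ hcon
  have := card_le_card h2
  rw [card_singleton] at this
  omega

lemma Cfg.d'_ge (h : Cfg P B) {w : V} {L : Finset V} (hL : L ∈ DD P w) :
    ((DD P w).image B).card ≤ (DD P w \ B L).card + 1 := by
  have h1 : (DD P w).image B ⊆ insert (B L) ((DD P w \ B L).image B) := by
    intro β hβ
    obtain ⟨M, hM, rfl⟩ := mem_image.1 hβ
    by_cases hML : M ∈ B L
    · rw [h.eqB L (mem_DD.1 hL).1 M hML]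
      exact mem_insert_self _ _
    · exact mem_insert_of_mem (mem_image_of_mem _ (mem_sdiff.2 ⟨hM, hML⟩))
  have h2 := card_le_card h1
  have h3 := card_insert_le (B L) ((DD P w \ B L).image B)
  have h4 : ((DD P w \ B L).image B).card ≤ (DD P w \ B L).card := card_image_le
  omega

lemma Cfg.aa_ge (h : Cfg P B) {w : V} (hq : (QQ P B w).Nonempty) {L : Finset V}
    (hL : L ∈ DD P w) :
    1 + ((QQ P B w).card : ℤ) - (((QQ P B w).filter (fun K => K ∈ nb P B L)).card : ℤ) ≤
      aa P B L := by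
  obtain ⟨hLP, hwL⟩ := mem_DD.1 hL
  set W := WW P B w ∪ QQ P B w with hW
  -- the intersection
  have hI : SS P B L ∩ W ⊆ (B L ∪ (DD P w \ B L)) ∪ (QQ P B w).filter (fun K => K ∈ nb P B L) := by
    intro K hK
    obtain ⟨hKS, hKW⟩ := mem_inter.1 hK
    rcases mem_union.1 hKS with hKB | hKN
    · exact mem_union_left _ (mem_union_left _ hKB)
    · rcases mem_union.1 hKW with hKW | hKQ
      · obtain ⟨M, hM, hKM⟩ := mem_WW.1 hKW
        obtain ⟨hMP, hwM⟩ := mem_DD.1 hM
        obtain ⟨hKP, hKL, p, hp⟩ := mem_nb.1 hKN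
        rw [mem_inter] at hp
        have hwK : w ∈ K := by
          by_contra hwK
          have hpw : p ≠ w := fun e => hwK (e ▸ hp.1)
          have hLM : L ∉ B M := by
            intro hLM
            rw [h.eqB M hMP L hLM] at hKL
            exact hKL hKM
          exact h.no_two hMP hLP hLM hpw hp.2 hwL (mem_pts.2 ⟨K, hKM, hp.1⟩)
            (mem_pts.2 ⟨M, h.selfB M hMP, hwM⟩)
        exact mem_union_left _ (mem_union_right _ (mem_sdiff.2 ⟨mem_DD.2 ⟨hKP, hwK⟩, hKL⟩))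
      · exact mem_union_right _ (mem_filter.2 ⟨hKQ, hKN⟩)
  have hI1 := card_le_card hI
  have hI2 := card_union_le (B L ∪ (DD P w \ B L)) ((QQ P B w).filter (fun K => K ∈ nb P B L))
  have hI3 := card_union_le (B L) (DD P w \ B L)
  -- lower bound for the points of the intersection
  have hDnb : ∀ M ∈ DD P w \ B L, M ∈ nb P B L := by
    intro M hM
    rw [mem_sdiff] at hM
    exact mem_nb.2 ⟨(mem_DD.1 hM.1).1, hM.2, ⟨w, mem_inter.2 ⟨(mem_DD.1 hM.1).2, hwL⟩⟩⟩
  have hsub : B L ∪ (DD P w \ B L) ⊆ SS P B L ∩ W := by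
    intro K hK
    rcases mem_union.1 hK with hK | hK
    · exact mem_inter.2 ⟨mem_union_left _ hK, mem_union_left _ (mem_WW.2 ⟨L, hL, hK⟩)⟩
    · exact mem_inter.2 ⟨mem_union_right _ (hDnb K hK),
        mem_union_left _ (h.DD_sub_WW w (mem_sdiff.1 hK).1)⟩
  have hlow : (B L).card + 2 + 2 * (DD P w \ B L).card ≤ (pts (SS P B L ∩ W)).card := by
    have e1 : pts (B L) ∪ (DD P w \ B L).biUnion (fun M => M.erase w) ⊆
        pts (SS P B L ∩ W) := by
      intro x hx
      rcases mem_union.1 hx with hx | hx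
      · exact pts_mono (subset_union_left.trans hsub) hx
      · obtain ⟨M, hM, hxM⟩ := mem_biUnion.1 hx
        exact mem_pts.2 ⟨M, hsub (mem_union_right _ hM), (mem_erase.1 hxM).2⟩
    have e2 : Disjoint (pts (B L)) ((DD P w \ B L).biUnion (fun M => M.erase w)) := by
      rw [disjoint_left]
      intro x hx hx'
      obtain ⟨M, hM, hxM⟩ := mem_biUnion.1 hx'
      obtain ⟨hxw, hxM⟩ := mem_erase.1 hxM
      have hMP := mem_DD.1 (mem_sdiff.1 hM).1
      exact h.no_two hLP hMP.1 (mem_sdiff.1 hM).2 hxw hxM hMP.2 hx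
        (mem_pts.2 ⟨L, h.selfB L hLP, hwL⟩)
    have e3 : ((DD P w \ B L).biUnion (fun M => M.erase w)).card =
        2 * (DD P w \ B L).card := by
      rw [card_biUnion]
      · have : ∀ M ∈ DD P w \ B L, (M.erase w).card = 2 := by
          intro M hM
          have hMP := mem_DD.1 (mem_sdiff.1 hM).1
          rw [card_erase_of_mem hMP.2, h.three M hMP.1]
        rw [sum_congr rfl this]
        simp [mul_comm]
      · intro M hM M' hM' hne
        rw [mem_coe] at hM hM'
        show Disjoint (M.erase w) (M'.erase w)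
        rw [disjoint_left]
        intro x hx hx'
        obtain ⟨hxw, hx⟩ := mem_erase.1 hx
        obtain ⟨_, hx'⟩ := mem_erase.1 hx'
        have hMP := mem_DD.1 (mem_sdiff.1 hM).1
        have hMP' := mem_DD.1 (mem_sdiff.1 hM').1
        have hl := h.lin M hMP.1 M' hMP'.1 hne
        have hs : ({x, w} : Finset V) ⊆ M ∩ M' := by
          intro y hy
          rcases mem_insert.1 hy with rfl | hy
          · exact mem_inter.2 ⟨hx, hx'⟩
          · rw [mem_singleton] at hy
            subst hy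
            exact mem_inter.2 ⟨hMP.2, hMP'.2⟩
        have := card_le_card hs
        rw [card_pair hxw] at this
        omega
    have e4 := card_le_card e1
    rw [card_union_of_disjoint e2, e3, h.vB' hLP] at e4
    exact e4
  -- submodularity
  obtain ⟨M, hM⟩ := h.DD_nb hq hL
  have hF := h.F3 (SS P B L ∪ W) (union_subset (h.SS_sub hLP)
      (union_subset (h.WW_sub w) (filter_subset _ _))) L
      (mem_union_left _ (mem_union_left _ (h.selfB L hLP))) M
      (mem_union_left _ (mem_union_right _ hM)) (mem_nb.1 hM).2.1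
  have hsm := submod (SS P B L) W
  have hc := card_union_add_card_inter (SS P B L) W
  have hWc : W.card = (WW P B w).card + (QQ P B w).card :=
    card_union_of_disjoint (h.QQ_disj w)
  have hWp : (pts W).card ≤ 1 + (WW P B w).card + ((DD P w).image B).card := by
    rw [hW, h.pts_WQ]; exact h.pts_WW w
  have hd := h.d'_ge hL
  unfold aa
  omega

lemma Cfg.sum_q (h : Cfg P B) (w : V) :
    ∑ L ∈ DD P w, ((QQ P B w).filter (fun K => K ∈ nb P B L)).card =
      3 * (QQ P B w).card := by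
  have h1 : ∑ L ∈ DD P w, ((QQ P B w).filter (fun K => K ∈ nb P B L)).card =
      ∑ L ∈ DD P w, ∑ K ∈ QQ P B w, (if K ∈ nb P B L then 1 else 0) := by
    apply sum_congr rfl
    intro L _
    rw [card_filter]
  rw [h1, sum_comm]
  have h2 : ∀ K ∈ QQ P B w, ∑ L ∈ DD P w, (if K ∈ nb P B L then 1 else 0) = 3 := by
    intro K hK
    obtain ⟨hKP, hwK, hj⟩ := mem_QQ.1 hK
    rw [← card_filter, ← hj]
    unfold jn
    congr 1
    ext L
    simp only [mem_filter, mem_DD]
    constructor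
    · rintro ⟨⟨hLP, hwL⟩, hKL⟩
      exact ⟨h.nb_symm hLP hKL, hwL⟩
    · rintro ⟨hLK, hwL⟩
      exact ⟨⟨(mem_nb.1 hLK).1, hwL⟩, h.nb_symm hKP hLK⟩
  rw [sum_congr rfl h2]
  simp [mul_comm]

/-- the local inequality at a vertex with a full line -/
lemma Cfg.vertex (h : Cfg P B) {w : V} (hq : (QQ P B w).Nonempty) :
    (3 : ℤ) - (DD P w).card ≤ 2 * ((∑ L ∈ DD P w, aa P B L) - 3 * (QQ P B w).card) := by
  have h1 : ∑ L ∈ DD P w, (1 + ((QQ P B w).card : ℤ) -
      (((QQ P B w).filter (fun K => K ∈ nb P B L)).card : ℤ)) ≤ ∑ L ∈ DD P w, aa P B L :=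
    sum_le_sum (fun L hL => h.aa_ge hq hL)
  rw [sum_sub_distrib] at h1
  have h2 : (∑ L ∈ DD P w, (((QQ P B w).filter (fun K => K ∈ nb P B L)).card : ℤ)) =
      3 * (QQ P B w).card := by
    have := h.sum_q w
    exact_mod_cast this
  rw [h2] at h1
  simp only [sum_const, nsmul_eq_mul] at h1
  have h3 := h.q_le hq
  have h4 : ((DD P w).image B).card ≤ (DD P w).card := card_image_le
  have h5 : 1 ≤ (QQ P B w).card := card_pos.2 hq
  set q := (QQ P B w).card
  set d := (DD P w).card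
  have h6 : q + 2 ≤ d := h3.trans h4
  by_cases hd : 6 ≤ d
  · have h7 : (6 : ℤ) ≤ d := by exact_mod_cast hd
    have h8 : (1 : ℤ) ≤ q := by exact_mod_cast h5
    nlinarith
  · push Not at hd
    have hq3 : q ≤ 3 := by omega
    interval_cases d <;> interval_cases q <;> simp_all <;> omega

end Pool.Agent.H155R2.BESR
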